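import Mathlib.Topology.Sheaves.Presheaf
import Mathlib.Tactic.Monotonicity.Lemmas
import Mathlib.LinearAlgebra.Eigenspace.Basic
import Mathlib.Data.Int.Star
import Mathlib.Algebra.Order.Ring.Star
import Mathlib.Algebra.Order.Star.Real
import Mathlib.Analysis.Normed.Group.Ultra
import Mathlib.RingTheory.PiTensorProduct
import Mathlib.NumberTheory.Padics.ProperSpace
import Pool.Agent.MP_59efd2_nt.lz.Lii

-- ======== part 0: formerly Pool.Agent.MP_59efd2_nt.lz.Nd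
section MrgPart0

/-!
# Row ND: the local cup product modulo `p` is not zero
-/

noncomputable section

namespace Pool.Agent.MP_59efd2_nt.lz

open scoped Pointwise Classical
open Additive Finset

set_option linter.unusedSectionVars false

namespace NdP

variable {p : ℕ} [hp : Fact p.Prime] {V : Pl}

lemma vle {x : Qb} (h : x ∈ V) : V.valuation x ≤ 1 := (V.valuation_le_one_iff x).2 h

lemma vmul_lt_left {x y : Qb} (hx : V.valuation x < 1) (hy : y ∈ V) : V.valuation (x * y) < 1 := by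
  rw [map_mul]
  exact (mul_le_of_le_one_right' (vle hy)).trans_lt hx

lemma vmul_lt_right {x y : Qb} (hx : x ∈ V) (hy : V.valuation y < 1) :
    V.valuation (x * y) < 1 := by
  rw [mul_comm]; exact vmul_lt_left hy hx

lemma vdvd (hV : Above V p) {z : ℤ} (h : (p : ℤ) ∣ z) : V.valuation (z : Qb) < 1 := by
  obtain ⟨k, rfl⟩ := h
  push_cast
  exact vmul_lt_left hV (intCast_mem V k)

lemma vp_pos : 0 < V.valuation (p : Qb) :=
  zero_lt_iff.2 ((Valuation.ne_zero_iff _).2 (Nat.cast_ne_zero.2 hp.out.ne_zero))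

/-- `s` is congruent to the residue class `a`. -/
def Cg (V : Pl) (s : Qb) (a : ZMod p) : Prop :=
  s ∈ V ∧ ∀ z : ℤ, (z : ZMod p) = a → V.valuation (s - z) < 1

lemma cg_of (hV : Above V p) {s : Qb} {a : ZMod p} (z : ℤ) (hz : (z : ZMod p) = a)
    (h : V.valuation (s - z) < 1) : Cg V s a := by
  refine ⟨?_, fun z' hz' => ?_⟩
  · have := add_mem ((V.valuation_le_one_iff _).1 h.le) (intCast_mem V z)
    rwa [sub_add_cancel] at this
  · have h2 := vdvd hV ((ZMod.intCast_eq_intCast_iff_dvd_sub z' z p).1 (hz'.trans hz.symm))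
    have : s - z' = (s - z) + ((z - z' : ℤ) : Qb) := by push_cast; ring
    rw [this]
    exact V.valuation.map_add_lt h h2

lemma cg_nat (hV : Above V p) (m : ℕ) : Cg V (m : Qb) (m : ZMod p) :=
  cg_of hV (m : ℤ) (by simp) (by simp)

lemma Cg.add (hV : Above V p) {s s' : Qb} {a a' : ZMod p} (h : Cg V s a) (h' : Cg V s' a') :
    Cg V (s + s') (a + a') := by
  refine cg_of hV ((a.val : ℤ) + (a'.val : ℤ)) (by simp) ?_
  have : s + s' - (((a.val : ℤ) + (a'.val : ℤ) : ℤ) : Qb) =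
      (s - ((a.val : ℤ) : Qb)) + (s' - ((a'.val : ℤ) : Qb)) := by push_cast; ring
  rw [this]
  exact V.valuation.map_add_lt (h.2 _ (by simp)) (h'.2 _ (by simp))

lemma Cg.mul (hV : Above V p) {s s' : Qb} {a a' : ZMod p} (h : Cg V s a) (h' : Cg V s' a') :
    Cg V (s * s') (a * a') := by
  refine cg_of hV ((a.val : ℤ) * (a'.val : ℤ)) (by simp) ?_
  have : s * s' - (((a.val : ℤ) * (a'.val : ℤ) : ℤ) : Qb) =
      (s - ((a.val : ℤ) : Qb)) * s' + ((a.val : ℤ) : Qb) * (s' - ((a'.val : ℤ) : Qb)) := by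
    push_cast; ring
  rw [this]
  exact V.valuation.map_add_lt (vmul_lt_left (h.2 _ (by simp)) h'.1)
    (vmul_lt_right (intCast_mem V _) (h'.2 _ (by simp)))

lemma Cg.sum (hV : Above V p) {ι : Type} (R : Finset ι) {s : ι → Qb} {a : ι → ZMod p}
    (h : ∀ i ∈ R, Cg V (s i) (a i)) : Cg V (∑ i ∈ R, s i) (∑ i ∈ R, a i) := by
  induction R using Finset.induction_on with
  | empty => simpa using cg_nat hV 0
  | insert i R hi ih =>
    rw [sum_insert hi, sum_insert hi]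
    exact (h i (mem_insert_self _ _)).add hV (ih fun j hj => h j (mem_insert_of_mem hj))

lemma Cg.val_one (hv : ValStmt) (hV : Above V p) {s : Qb} {a : ZMod p} (h : Cg V s a)
    (ha : a ≠ 0) : V.valuation s = 1 := by
  have h1 : V.valuation ((a.val : ℤ) : Qb) = 1 := by
    refine (hv.int V p hp.out hV _).2 fun hd => ha ?_
    simpa using (ZMod.intCast_zmod_eq_zero_iff_dvd _ p).2 hd
  have h2 := h.2 (a.val : ℤ) (by simp)
  rw [← h1] at h2
  have := V.valuation.map_add_eq_of_lt_left h2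
  rwa [add_sub_cancel, h1] at this

lemma v_pred (hv : ValStmt) (hV : Above V p) : V.valuation ((p - 1 : ℕ) : Qb) = 1 := by
  refine (cg_nat hV (p - 1)).val_one hv hV ?_
  rw [Nat.cast_pred hp.out.pos, ZMod.natCast_self, zero_sub]
  exact neg_ne_zero.2 one_ne_zero

lemma Cg.uniq (hv : ValStmt) (hV : Above V p) {s s' : Qb} {a : ZMod p} (h : Cg V s a)
    (h' : Cg V s' a) (ha : a ≠ 0) (e : s ^ (p - 1) = 1) (e' : s' ^ (p - 1) = 1) : s = s' := by
  have h1 := h'.val_one hv hV ha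
  have h0 : s' ≠ 0 := fun h0 => by simp [h0] at h1
  have h2 : V.valuation (s - s') < 1 := by
    have := V.valuation.map_sub_lt (h.2 (a.val : ℤ) (by simp)) (h'.2 (a.val : ℤ) (by simp))
    rwa [sub_sub_sub_cancel_right] at this
  have h3 := hv.mu' V (p - 1) (s / s') (v_pred hv hV) (by rw [div_pow, e, e', div_one]) (by
    rw [div_sub_one h0, map_div₀, h1, div_one]; exact h2)
  exact (div_eq_one_iff_eq h0).1 h3

/-- Teichmüller lifts. -/
lemma exists_tl (hv : ValStmt) (hV : Above V p) (a : ZMod p) (ha : a ≠ 0) :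
    ∃ s : Qbˣ, s ∈ fixU (DG V) ∧ s ^ (p - 1) = 1 ∧ Cg V s a := by
  have hp1 : p - 1 ≠ 0 := (Nat.sub_pos_of_lt hp.out.one_lt).ne'
  have hc : Cg V (a.val : Qb) a := by simpa using cg_nat hV a.val
  obtain ⟨s, hs, he, hlt⟩ := hv.hensel V (DG V) le_rfl (Polynomial.X ^ (p - 1) - Polynomial.C 1)
    (Polynomial.monic_X_pow_sub_C 1 hp1) (fun i => by
      rw [Polynomial.coeff_sub, Polynomial.coeff_X_pow, Polynomial.coeff_C]
      refine sub_mem ?_ ?_ <;> split_ifs <;> simp) (a.val : Qb) (natCast_mem _ _) (by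
      have : (p : ℤ) ∣ (a.val : ℤ) ^ (p - 1) - 1 := by
        rw [← ZMod.intCast_zmod_eq_zero_iff_dvd]
        simp [ZMod.pow_card_sub_one_eq_one ha]
      simpa using vdvd hV this) (by
      simp only [Polynomial.derivative_sub, Polynomial.derivative_X_pow, Polynomial.derivative_C,
        sub_zero, Polynomial.eval_mul, Polynomial.eval_C, Polynomial.eval_pow, Polynomial.eval_X,
        map_mul, map_pow]
      rw [v_pred hv hV, hc.val_one hv hV ha, one_pow, one_mul])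
  have he' : s ^ (p - 1) = 1 := by simpa [sub_eq_zero] using he
  have h0 : s ≠ 0 := fun h0 => by simp [h0, hp1] at he'
  exact ⟨Units.mk0 s h0, (mem_OH.1 hs).2, Units.ext (by simpa using he'),
    cg_of hV (a.val : ℤ) (by simp) (by simpa using hlt)⟩

lemma char_inv {D : Subgroup GQ} {θ : GQ → ZMod p} (h : IsChar D θ) {g : GQ} (hg : g ∈ D) :
    θ g * θ g⁻¹ = 1 := by
  rw [← h.mul g hg _ (D.inv_mem hg), mul_inv_cancel, h.one]

lemma char_ne {D : Subgroup GQ} {θ : GQ → ZMod p} (h : IsChar D θ) {g : GQ} (hg : g ∈ D) :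
    θ g ≠ 0 := left_ne_zero_of_mul_eq_one (char_inv h hg)

/-- An eigenvector of normalised valuation. -/
lemma exists_eig (h3 : Coh3Stmt) (hv : ValStmt) (hd : DensStmt) (hV : Above V p)
    {θ : GQ → ZMod p} (hθ : IsChar (DG V) θ) :
    ∃ (t : Qb) (c : GQ → Qb) (i : ℕ), 0 < i ∧ i < p ∧
      V.valuation t ^ (p - 1) = V.valuation (p : Qb) ^ i ∧
      (∀ g ∈ DG V, g t = c g * t ∧ Cg V (c g) (θ g)) ∧ ∀ g ∈ DG V, θ g = 1 → g t = t := by
  choose! tl hfix hpow hcg using exists_tl hv hV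
  have hmul : ∀ a b : ZMod p, a ≠ 0 → b ≠ 0 → tl (a * b) = tl a * tl b := fun a b ha hb =>
    Units.ext ((hcg _ (mul_ne_zero ha hb)).uniq hv hV ((hcg a ha).mul hV (hcg b hb))
      (mul_ne_zero ha hb) (by simpa using congrArg Units.val (hpow _ (mul_ne_zero ha hb))) (by
        have h1 := congrArg Units.val (hpow a ha)
        have h2 := congrArg Units.val (hpow b hb)
        simp only [Units.val_pow_eq_pow_val, Units.val_one] at h1 h2
        rw [Units.val_mul, mul_pow, h1, h2, one_mul]))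
  have hone : (tl 1 : Qb) = 1 := (hcg 1 one_ne_zero).uniq hv hV (by simpa using cg_nat hV 1)
    one_ne_zero (by simpa using congrArg Units.val (hpow 1 one_ne_zero)) (one_pow _)
  obtain ⟨m, hm⟩ := h3.h90 (DG V) (fun g => ofMul (tl (θ g)))
    ⟨hθ.smooth.comp fun a => ofMul (tl a), fun g hg k hk => by
      have : sU g (tl (θ k)) = tl (θ k) := Units.ext (hfix _ (char_ne hθ hk) g hg)
      beta_reduce
      rw [hθ.mul g hg k hk, hmul _ _ (char_ne hθ hg) (char_ne hθ hk), aU_ofMul, this, ofMul_mul]⟩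
  obtain ⟨t₀, rfl⟩ := (ofMul : Qbˣ ≃ AU).surjective m
  have ht : ∀ g ∈ DG V, g (t₀ : Qb) = tl (θ g) * t₀ := fun g hg => by
    have h1 : tl (θ g) = sU g t₀ / t₀ := congrArg Additive.toMul (hm g hg)
    have h2 := congrArg Units.val (eq_div_iff_mul_eq'.1 h1)
    exact h2.symm
  obtain ⟨j, hj⟩ := hd.baseVal V p hp.out hV (t₀ ^ (p - 1)) fun g hg => by
    have h1 := congrArg Units.val (hpow _ (char_ne hθ hg))
    simp only [Units.val_pow_eq_pow_val, Units.val_one] at h1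
    rw [Units.val_pow_eq_pow_val, map_pow, ht g hg, mul_pow, h1, one_mul]
  rw [Units.val_pow_eq_pow_val, map_pow] at hj
  have hq : (0 : ℤ) < ((p - 1 : ℕ) : ℤ) := by exact_mod_cast Nat.sub_pos_of_lt hp.out.one_lt
  have e1 := Int.emod_nonneg (j - 1) hq.ne'
  have e2 := Int.emod_lt_of_pos (j - 1) hq
  have e3 := Int.emod_add_mul_ediv (j - 1) ((p - 1 : ℕ) : ℤ)
  obtain ⟨i, hi⟩ := Int.eq_ofNat_of_zero_le e1
  rw [hi] at e2 e3
  have hg : ∀ g ∈ DG V, g ((p : Qb) ^ (-((j - 1) / ((p - 1 : ℕ) : ℤ))) * t₀) =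
      tl (θ g) * ((p : Qb) ^ (-((j - 1) / ((p - 1 : ℕ) : ℤ))) * t₀) := fun g hg => by
    rw [map_mul, map_zpow₀, map_natCast, ht g hg]; ring
  refine ⟨(p : Qb) ^ (-((j - 1) / ((p - 1 : ℕ) : ℤ))) * t₀, fun g => tl (θ g), i + 1,
    Nat.succ_pos i, by omega, ?_, fun g h => ⟨hg g h, hcg _ (char_ne hθ h)⟩, fun g h h1 => ?_⟩
  · rw [map_mul, map_zpow₀, mul_pow, hj, ← zpow_natCast, ← zpow_mul, ← zpow_add₀ vp_pos.ne',
      ← zpow_natCast]
    congr 1
    push_cast at e3 ⊢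
    linarith
  · rw [hg g h, h1, hone, one_mul]

lemma prod_expand {ι : Type} (R : Finset ι) (c : ι → Qb) (m : ι → ℕ) {t : Qb} (ht : t ∈ V)
    (hc : ∀ i ∈ R, c i ∈ V) :
    ∃ e ∈ V, ∏ i ∈ R, (1 + c i * t) ^ m i = 1 + (∑ i ∈ R, (m i : Qb) * c i) * t + e * t ^ 2 := by
  have mul : ∀ s s' e e' : Qb, s ∈ V → s' ∈ V → e ∈ V → e' ∈ V → ∃ e'' ∈ V,
      (1 + s * t + e * t ^ 2) * (1 + s' * t + e' * t ^ 2) = 1 + (s + s') * t + e'' * t ^ 2 :=
    fun s s' e e' h1 h2 h3 h4 =>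
      ⟨e + e' + s * s' + (s * e' + s' * e) * t + e * e' * t ^ 2,
        add_mem (add_mem (add_mem (add_mem h3 h4) (mul_mem h1 h2))
          (mul_mem (add_mem (mul_mem h1 h4) (mul_mem h2 h3)) ht))
          (mul_mem (mul_mem h3 h4) (pow_mem ht 2)), by ring⟩
  have pw : ∀ s ∈ V, ∀ k : ℕ, ∃ e ∈ V, (1 + s * t) ^ k = 1 + ((k : Qb) * s) * t + e * t ^ 2 := by
    intro s hs k
    induction k with
    | zero => exact ⟨0, zero_mem _, by simp⟩
    | succ k ih =>
      obtain ⟨e, he, h⟩ := ih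
      obtain ⟨e', he', h'⟩ := mul _ s e 0 (mul_mem (natCast_mem V k) hs) hs he (zero_mem _)
      refine ⟨e', he', ?_⟩
      rw [pow_succ, h]
      push_cast
      linear_combination h'
  induction R using Finset.induction_on with
  | empty => exact ⟨0, zero_mem _, by simp⟩
  | insert i R hi ih =>
    obtain ⟨e, he, h⟩ := ih fun j hj => hc j (mem_insert_of_mem hj)
    obtain ⟨e', he', h'⟩ := pw _ (hc i (mem_insert_self _ _)) (m i)
    obtain ⟨e'', he'', h''⟩ := mul _ _ e' e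
      (mul_mem (natCast_mem V (m i)) (hc i (mem_insert_self _ _)))
      (sum_mem fun j hj => mul_mem (natCast_mem V (m j)) (hc j (mem_insert_of_mem hj))) he' he
    exact ⟨e'', he'', by rw [prod_insert hi, sum_insert hi, h, h', h'']⟩

/-- The norm over a transversal. -/
lemma norm_fix {D H : Subgroup GQ} {R : Finset GQ} (hR : ∀ r ∈ R, r ∈ D)
    (hu : ∀ g ∈ D, ∃! r, r ∈ R ∧ r⁻¹ * g ∈ H) {s : Qb} (hs : IsFix H s) :
    IsFix D (∏ r ∈ R, r s) := by
  intro g hg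
  rw [map_prod]
  have ex : ∀ r ∈ R, ∃ r', r' ∈ R ∧ r'⁻¹ * (g * r) ∈ H := fun r hr =>
    (hu _ (D.mul_mem hg (hR r hr))).exists
  choose φ h1 h2 using ex
  refine Finset.prod_bij φ h1 (fun a ha b hb e => ?_) (fun b hb => ?_) fun a ha => ?_
  · refine (hu b (hR b hb)).unique ⟨ha, ?_⟩ ⟨hb, by simp⟩
    have := H.mul_mem (H.inv_mem (h2 a ha)) (h2 b hb)
    rw [← e] at this
    simpa [mul_assoc] using this
  · obtain ⟨a, ha, h⟩ := (hu _ (D.mul_mem (D.inv_mem hg) (hR b hb))).exists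
    refine ⟨a, ha, (hu _ (D.mul_mem hg (hR a ha))).unique ⟨h1 a ha, h2 a ha⟩ ⟨hb, ?_⟩⟩
    simpa [mul_assoc] using H.inv_mem h
  · have := congrArg (φ a ha) (hs _ (h2 a ha))
    rw [← AlgEquiv.mul_apply, mul_inv_cancel_left, AlgEquiv.mul_apply] at this
    exact this

/-- An element close to one at a distance that is not a `p`-th power is not a `p`-th power. -/
lemma not_pow (hv : ValStmt) (hd : DensStmt) (hV : Above V p) {H : Subgroup GQ} {R : Finset GQ}
    (hR : ∀ r ∈ R, r ∈ DG V) (hu : ∀ g ∈ DG V, ∃! r, r ∈ R ∧ r⁻¹ * g ∈ H) (hn : ¬ p ∣ R.card)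
    {i : ℕ} (h0 : 0 < i) (hi : i < p) {W : Qb} (hW : IsFix H W)
    (h : V.valuation (W ^ p - 1) ^ (p - 1) = V.valuation (p : Qb) ^ i) : False := by
  have hp0 : 0 < V.valuation (p : Qb) := vp_pos
  have hp1 : p - 1 ≠ 0 := (Nat.sub_pos_of_lt hp.out.one_lt).ne'
  have h1 : V.valuation (W ^ p - 1) < 1 := by
    refine (pow_lt_one_iff hp1).1 ?_
    rw [h]
    exact pow_lt_one' hV h0.ne'
  have h2 : V.valuation (p : Qb) ≤ V.valuation (W ^ p - 1) := by
    refine le_of_pow_le_pow_left₀ hp1 zero_le ?_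
    rw [h]
    exact pow_le_pow_right_of_le_one' (le_of_lt hV) (by omega)
  have h3 : V.valuation W = 1 := by
    have := V.valuation.map_one_add_of_lt h1
    rw [add_sub_cancel, map_pow] at this
    exact (pow_eq_one_iff_of_nonneg zero_le hp.out.ne_zero).1 this
  have hWV : W ∈ V := (V.valuation_le_one_iff W).1 h3.le
  obtain ⟨r, hr⟩ := exists_add_pow_prime_eq hp.out (⟨W - 1, sub_mem hWV (one_mem _)⟩ : V) 1
  have hr' : W ^ p - 1 = (W - 1) ^ p + p * ((W - 1) * r) := by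
    have := congrArg (fun z : V => (z : Qb)) hr
    push_cast at this
    rw [sub_add_cancel] at this
    rw [this]; ring
  have hs1 : V.valuation (W - 1) < 1 := by
    have h4 : V.valuation ((W - 1) ^ p) < 1 := by
      rw [eq_sub_of_add_eq hr'.symm]
      exact V.valuation.map_sub_lt h1
        (vmul_lt_left hV (mul_mem (sub_mem hWV (one_mem _)) r.2))
    rw [map_pow] at h4
    exact (pow_lt_one_iff hp.out.ne_zero).1 h4
  have h5 : V.valuation (p * ((W - 1) * r)) < V.valuation (W ^ p - 1) := by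
    refine lt_of_lt_of_le ?_ h2
    rw [map_mul]
    exact mul_lt_of_lt_one_right hp0 (vmul_lt_left hs1 r.2)
  have h6 : V.valuation (W - 1) ^ p = V.valuation (W ^ p - 1) := by
    rw [← map_pow, eq_sub_of_add_eq hr'.symm]
    exact V.valuation.map_sub_eq_of_lt_left h5
  have hs0 : W - 1 ≠ 0 := fun h0 => by
    rw [h0, map_zero, zero_pow hp.out.ne_zero] at h6
    exact (hp0.trans_le h2).ne h6
  have hN : ∏ r ∈ R, r (W - 1) ≠ 0 :=
    prod_ne_zero_iff.2 fun r _ => (map_ne_zero r).2 hs0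
  obtain ⟨j, hj⟩ := hd.baseVal V p hp.out hV (Units.mk0 _ hN)
    (norm_fix hR hu fun g hg => by rw [map_sub, hW g hg, map_one])
  rw [Units.val_mk0, map_prod, prod_congr rfl fun r hr => hv.inv V r (hR r hr) _, prod_const] at hj
  have h7 : V.valuation (p : Qb) ^ ((i * R.card : ℕ) : ℤ) =
      V.valuation (p : Qb) ^ (j * ((p * (p - 1) : ℕ) : ℤ)) := by
    rw [zpow_natCast, zpow_mul, zpow_natCast, ← hj, pow_mul, ← h, ← h6, ← pow_mul, ← pow_mul,
      ← pow_mul]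
    congr 1
    ring
  have h8 := zpow_right_injective₀ hp0 (ne_of_lt hV) h7
  have h9 : (p : ℤ) ∣ ((i * R.card : ℕ) : ℤ) := by
    rw [h8]
    push_cast
    exact Dvd.intro (j * ((p - 1 : ℕ) : ℤ)) (by ring)
  rcases (Nat.Prime.dvd_mul hp.out).1 (Int.natCast_dvd_natCast.1 h9) with h | h
  · exact absurd (Nat.le_of_dvd h0 h) (not_le.2 hi)
  · exact hn h

/-- The common kernel of two characters. -/
def ker2 {D : Subgroup GQ} {θ ω : GQ → ZMod p} (h : IsChar D θ) (h' : IsChar D ω) :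
    Subgroup GQ where
  carrier := {g | g ∈ D ∧ θ g = 1 ∧ ω g = 1}
  mul_mem' := fun {a b} ha hb => ⟨D.mul_mem ha.1 hb.1,
    by rw [h.mul a ha.1 b hb.1, ha.2.1, hb.2.1, one_mul],
    by rw [h'.mul a ha.1 b hb.1, ha.2.2, hb.2.2, one_mul]⟩
  one_mem' := ⟨D.one_mem, h.one, h'.one⟩
  inv_mem' := fun {a} ha => ⟨D.inv_mem ha.1,
    by simpa [ha.2.1] using char_inv h ha.1, by simpa [ha.2.2] using char_inv h' ha.1⟩

section ker

variable {D : Subgroup GQ} {θ ω : GQ → ZMod p} (h : IsChar D θ) (h' : IsChar D ω)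

lemma mem_ker2 {g : GQ} : g ∈ ker2 h h' ↔ g ∈ D ∧ θ g = 1 ∧ ω g = 1 := Iff.rfl

lemma ker2_open : OpenIn (ker2 h h') D := by
  obtain ⟨N, hN⟩ := h.smooth
  obtain ⟨N', hN'⟩ := h'.smooth
  refine ⟨fun g hg => hg.1, N ⊓ N', fun g hg hn => ⟨hg, ?_, ?_⟩⟩
  · simpa [h.one] using hN 1 D.one_mem g hg hn.1
  · simpa [h'.one] using hN' 1 D.one_mem g hg hn.2

lemma ker2_normal : NormalIn (ker2 h h') D := fun g hg k hk =>
  ⟨D.mul_mem (D.mul_mem hg hk.1) (D.inv_mem hg),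
    by rw [h.mul _ (D.mul_mem hg hk.1) _ (D.inv_mem hg), h.mul g hg k hk.1, hk.2.1, mul_one,
      char_inv h hg],
    by rw [h'.mul _ (D.mul_mem hg hk.1) _ (D.inv_mem hg), h'.mul g hg k hk.1, hk.2.2, mul_one,
      char_inv h' hg]⟩

lemma ker2_conj {r k : GQ} (hr : r ∈ D) (hk : k ∈ ker2 h h') : r⁻¹ * k * r ∈ ker2 h h' := by
  simpa using ker2_normal h h' r⁻¹ (D.inv_mem hr) k hk

/-- A character as a homomorphism. -/
def hom : D →* (ZMod p)ˣ :=
  MonoidHom.toHomUnits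
    { toFun := fun g => θ g, map_one' := h.one, map_mul' := fun a b => h.mul a a.2 b b.2 }

lemma ker2_index : ¬ p ∣ (ker2 h h').relIndex D := by
  have e : (ker2 h h').subgroupOf D = ((hom h).prod (hom h')).ker := by
    ext g
    simp [Subgroup.mem_subgroupOf, mem_ker2, hom, Units.ext_iff]
  intro hd
  rw [Subgroup.relIndex, e, Subgroup.index_ker] at hd
  have h2 := hd.trans (Subgroup.card_subgroup_dvd_card _)
  rw [Nat.card_prod, Nat.card_eq_fintype_card, ZMod.card_units, Nat.Prime.dvd_mul hp.out,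
    or_self] at h2
  have := Nat.le_of_dvd (Nat.sub_pos_of_lt hp.out.one_lt) h2
  have := hp.out.pos
  omega

end ker

lemma zo_congr {H : Subgroup GQ} {θ ω c : GQ → ZMod p} (hc : Zo H (mulAct θ) c)
    (e : ∀ g ∈ H, ω g = θ g) : Zo H (mulAct ω) c :=
  ⟨hc.1, fun g hg k hk => by rw [hc.2 g hg k hk, mulAct_apply, mulAct_apply, e g hg]⟩

lemma exists_root (u : Qbˣ) : ∃ w : Qbˣ, w ^ p = u := by
  obtain ⟨w, hw⟩ := IsAlgClosed.exists_pow_nat_eq (u : Qb) hp.out.pos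
  have h0 : w ≠ 0 := fun h0 => u.ne_zero (by rw [← hw, h0, zero_pow hp.out.ne_zero])
  exact ⟨Units.mk0 w h0, Units.ext (by simpa using hw)⟩

/-- A class that does not vanish on the common kernel of `θ` and `ω`. -/
lemma exists_x (h1 : Coh1Stmt) (h3 : Coh3Stmt) (hv : ValStmt) (hd : DensStmt) (hV : Above V p)
    {θ θ' : GQ → ZMod p} (hθ : IsChar (DG V) θ) (hθ' : IsChar (DG V) θ')
    (e : ∀ g ∈ DG V, θ g * θ' g = om p g) :
    ∃ x, Zo (DG V) (mulAct θ) x ∧ ∃ σ ∈ ker2 hθ (isChar_om p (DG V)), x σ ≠ 0 := by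
  have ho := isChar_om p (DG V)
  obtain ⟨t, c, i, i0, ip, hti, htc, ht1⟩ := exists_eig h3 hv hd hV hθ'
  have hp1 : p - 1 ≠ 0 := (Nat.sub_pos_of_lt hp.out.one_lt).ne'
  have hvt : V.valuation t < 1 := by
    refine (pow_lt_one_iff hp1).1 ?_
    rw [hti]
    exact pow_lt_one' hV i0.ne'
  have htV : t ∈ V := (V.valuation_le_one_iff t).1 hvt.le
  have hu0 : 1 + t ≠ 0 := fun h0 => by
    have := V.valuation.map_one_add_of_lt hvt
    simp [h0] at this
  obtain ⟨w, hw⟩ := exists_root (p := p) (Units.mk0 _ hu0)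
  obtain ⟨κ, hκ, hκw⟩ := h3.kumOf1 p (ker2 hθ ho) w (by
    rw [hw]
    intro g hg
    have : θ' g = 1 := by simpa [hg.2.1, hg.2.2] using e g hg.1
    rw [Units.val_mk0, map_add, map_one, ht1 g hg.1 this])
  obtain ⟨R, hR, hcard, hu⟩ := h1.transv _ _ (ker2_open hθ ho)
  obtain ⟨x, hx, hxe⟩ := h1.cores (ZMod p) (DG V) (ker2 hθ ho) (mulAct θ) κ R hθ.isAct
    (ker2_open hθ ho) (ker2_normal hθ ho) hR hu
    (zo_congr hκ fun g hg => hg.2.1.trans hg.2.2.symm)
  refine ⟨x, hx, ?_⟩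
  by_contra hz
  push Not at hz
  have hn : ¬ p ∣ R.card := hcard ▸ ker2_index hθ ho
  set m : GQ → ℕ := fun r => (θ r * om p r⁻¹).val with hm
  have hm1 : ∀ r ∈ R, (m r : ZMod p) * om p r = θ r := fun r hr => by
    rw [hm, ZMod.natCast_zmod_val, mul_assoc, mul_comm (om p r⁻¹), char_inv ho (hR r hr), mul_one]
  have hm2 : ∀ r ∈ R, (m r : ZMod p) * θ' r = 1 := fun r hr => by
    rw [hm, ZMod.natCast_zmod_val, mul_right_comm, e r (hR r hr), char_inv ho (hR r hr)]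
  have hfix : (∏ r ∈ R, sU r w ^ m r) ∈ fixU (ker2 hθ ho) := by
    intro g hg
    have key : ofMul (sU g (∏ r ∈ R, sU r w ^ m r) / ∏ r ∈ R, sU r w ^ m r) = iot1 p (x g) := by
      rw [hxe g hg, map_sum, map_prod, ← prod_div_distrib, ofMul_prod]
      refine sum_congr rfl fun r hr => ?_
      have h4 := congrArg (aU r) (hκw _ (ker2_conj hθ ho (hR r hr) hg))
      rw [aU_iot1, aU_ofMul, map_div, ← sU_mul, ← mul_assoc, ← mul_assoc, mul_inv_cancel, one_mul,
        sU_mul] at h4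
      rw [map_pow, ← div_pow, ofMul_pow, ← h4, ← map_nsmul, nsmul_eq_mul, ← mul_assoc, hm1 r hr,
        mulAct_apply]
    rw [hz g hg, map_zero] at key
    exact congrArg Units.val (div_eq_one.1 (congrArg Additive.toMul key))
  obtain ⟨E, hE, hexp⟩ := prod_expand R c m htV fun r hr => (htc r (hR r hr)).2.1
  have hpow : ((∏ r ∈ R, sU r w ^ m r : Qbˣ) : Qb) ^ p = ∏ r ∈ R, (1 + c r * t) ^ m r := by
    rw [← Units.val_pow_eq_pow_val, ← prod_pow, Units.coe_prod]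
    refine prod_congr rfl fun r hr => ?_
    rw [← pow_mul, mul_comm (m r), pow_mul, ← map_pow, hw, Units.val_pow_eq_pow_val, coe_sU,
      Units.val_mk0, map_add, map_one, (htc r (hR r hr)).1]
  have hS : V.valuation (∑ r ∈ R, (m r : Qb) * c r) = 1 := by
    refine (Cg.sum hV R fun r hr => (cg_nat hV (m r)).mul hV (htc r (hR r hr)).2).val_one hv hV ?_
    rw [sum_congr rfl hm2, sum_const, nsmul_eq_mul, mul_one]
    exact fun h0 => hn ((ZMod.natCast_eq_zero_iff _ _).1 h0)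
  refine not_pow hv hd hV hR hu hn i0 ip hfix ?_
  have h5 : V.valuation ((∑ r ∈ R, (m r : Qb) * c r) + E * t) = 1 := by
    rw [V.valuation.map_add_eq_of_lt_left (hS ▸ vmul_lt_right hE hvt), hS]
  rw [hpow, hexp, show 1 + (∑ r ∈ R, (m r : Qb) * c r) * t + E * t ^ 2 - 1 =
    ((∑ r ∈ R, (m r : Qb) * c r) + E * t) * t by ring, map_mul, h5, one_mul, hti]

/-- The cup product with a Kummer class is the cyclic cocycle. -/
lemma cup_cyc {H H' : Subgroup GQ} {x κ : GQ → ZMod p} {σ : GQ} (hc : Cyc H H' p x σ)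
    (ho : ∀ g ∈ H, om p g = 1) (hκ : Zo H (mulAct (om p)) κ) {w : Qbˣ}
    (hw : ∀ g ∈ H, iot1 p (κ g) = ofMul (sU g w / w)) :
    B2 H aU (cyc p x (ofMul (w ^ p)) - fun g h => iot1 p (x g * κ h)) := by
  refine ⟨fun g => (x g).val • ofMul w + iot1 p (x g * κ g),
    hc.sm1.comp₂ hκ.1 fun a b => a.val • ofMul w + iot1 p (a * b), fun g hg h hh => ?_⟩
  have e1 : aU g (ofMul w) = iot1 p (κ g) + ofMul w := by
    rw [hw g hg, aU_ofMul, ← ofMul_mul, div_mul_cancel]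
  have e2 : (x h).val • iot1 p (κ g) = iot1 p (x h * κ g) := by
    rw [← map_nsmul, nsmul_eq_mul, ZMod.natCast_zmod_val]
  have e3 : cyc p x (ofMul (w ^ p)) g h + (x g + x h).val • ofMul w =
      (x g).val • ofMul w + (x h).val • ofMul w := by
    rw [← add_nsmul, cyc]
    split_ifs with hle
    · rw [ofMul_pow, ← add_nsmul, ZMod.val_add_of_le hle, Nat.add_sub_cancel' hle]
    · rw [ZMod.val_add_of_lt (not_le.1 hle), zero_add]
  simp only [Pi.sub_apply, map_add, map_nsmul, e1, aU_iot1, ho g hg, one_mul, hc.add g hg h hh,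
    hκ.2 g hg h hh, mulAct_apply, nsmul_add, e2, add_mul, mul_add]
  rw [eq_sub_of_add_eq e3]
  abel

lemma geom (a : ZMod p) (ha : a ≠ 0) :
    ∑ i ∈ range (p - 1), a ^ i = if a = 1 then -1 else 0 := by
  split_ifs with h
  · rw [h]
    simp [Nat.cast_pred hp.out.pos]
  · rw [geom_sum_eq h, ZMod.pow_card_sub_one_eq_one ha, sub_self, zero_div]

lemma char_mul {D : Subgroup GQ} {θ ω : GQ → ZMod p} (h : IsChar D θ) (h' : IsChar D ω) :
    IsChar D fun g => θ g * ω g :=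
  ⟨by rw [h.one, h'.one, one_mul], fun g hg k hk => by rw [h.mul g hg k hk, h'.mul g hg k hk]; ring,
    h.smooth.comp₂ h'.smooth (· * ·)⟩

lemma char_pow {D : Subgroup GQ} {θ : GQ → ZMod p} (h : IsChar D θ) (i : ℕ) :
    IsChar D fun g => θ g ^ i :=
  ⟨by rw [h.one, one_pow], fun g hg k hk => by rw [h.mul g hg k hk, mul_pow],
    h.smooth.comp (· ^ i)⟩

end NdP

open NdP in
theorem nd (h1 : Coh1Stmt) (h2 : Coh2Stmt) (h3 : Coh3Stmt) (hv : ValStmt) (hd : DensStmt)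
    (hl : LiiStmt) (hh : H2vStmt) : NdStmt := by
  intro p hp _ V θ θ' hV hθ hθ' e
  by_contra hcon
  push Not at hcon
  have ho := isChar_om p (DG V)
  have hVt : V ≠ ⊤ := hv.above_ne V p hp.out.ne_zero hV
  obtain ⟨x₀, hx₀, σ, hσ, hne⟩ := exists_x h1 h3 hv hd hV hθ hθ' e
  obtain ⟨H, hH⟩ : ∃ H, H = ker2 hθ ho := ⟨_, rfl⟩
  have mH : ∀ g, g ∈ H ↔ g ∈ DG V ∧ θ g = 1 ∧ om p g = 1 := fun g => by rw [hH]; rfl
  have hO : OpenIn H (DG V) := hH ▸ ker2_open hθ ho
  have hNo : NormalIn H (DG V) := hH ▸ ker2_normal hθ ho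
  rw [← hH] at hσ
  obtain ⟨x, hxd⟩ : ∃ x : GQ → ZMod p, x = fun g => (x₀ σ)⁻¹ * x₀ g := ⟨_, rfl⟩
  have hx : Zo (DG V) (mulAct θ) x := by
    rw [hxd]
    exact hx₀.map (AddMonoidHom.mulLeft (x₀ σ)⁻¹) fun g _ m => by
      simp only [AddMonoidHom.coe_mulLeft, mulAct_apply]; ring
  have hxσ : x σ = 1 := by rw [hxd]; exact inv_mul_cancel₀ hne
  have hadd : ∀ g ∈ H, ∀ k ∈ H, x (g * k) = x g + x k := fun g hg k hk => by
    rw [hx.2 g (hO.1 hg) k (hO.1 hk), mulAct_apply, ((mH g).1 hg).2.1, one_mul]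
  have hx1 : x 1 = 0 := hx.map_one hθ.isAct
  let H' : Subgroup GQ :=
    { carrier := {g | g ∈ H ∧ x g = 0}
      mul_mem' := fun {a b} ha hb =>
        ⟨H.mul_mem ha.1 hb.1, by rw [hadd a ha.1 b hb.1, ha.2, hb.2, add_zero]⟩
      one_mem' := ⟨H.one_mem, hx1⟩
      inv_mem' := fun {a} ha => ⟨H.inv_mem ha.1, by
        have := hadd a ha.1 _ (H.inv_mem ha.1)
        rw [mul_inv_cancel, hx1, ha.2, zero_add] at this
        exact this.symm⟩ }
  have hc : Cyc H H' p x σ := by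
    refine ⟨hp.out.pos, hadd, fun g => Iff.rfl, hσ, hxσ, fun g hg => hg.1, ?_⟩
    obtain ⟨N, hN⟩ := hx.1
    exact ⟨N, fun g hg hn => ⟨hg, by
      simpa [hx1] using hN 1 (DG V).one_mem g (hO.1 hg) hn⟩⟩
  have hidx := hl V H H' p x σ hVt hO hp.out hc
  have hnle : ¬ fixU H ≤ NG H' σ p := fun h =>
    hp.out.one_lt.ne' (hidx.symm.trans (Subgroup.relIndex_eq_one.2 h))
  obtain ⟨b, hb, hbn⟩ := SetLike.not_le_iff_exists.1 hnle
  obtain ⟨w, rfl⟩ := exists_root (p := p) b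
  obtain ⟨κ, hκ, hκw⟩ := h3.kumOf1 p H w hb
  have hκa : ∀ g ∈ H, ∀ k ∈ H, κ (g * k) = κ g + κ k := fun g hg k hk => by
    rw [hκ.2 g hg k hk, mulAct_apply, ((mH g).1 hg).2.2, one_mul]
  obtain ⟨R, hR, -, hu⟩ := h1.transv _ _ hO
  have hψ : ∀ q : ℕ × ℕ, IsChar (DG V) fun g => θ g ^ q.1 * om p g ^ q.2 := fun q =>
    char_mul (char_pow hθ q.1) (char_pow ho q.2)
  have hy : ∀ q : ℕ × ℕ, ∃ y, Zo (DG V) (mulAct fun g => θ g ^ q.1 * om p g ^ q.2) y ∧
      ∀ h ∈ H, y h = ∑ r ∈ R, θ r ^ q.1 * om p r ^ q.2 * κ (r⁻¹ * h * r) := fun q =>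
    h1.cores (ZMod p) (DG V) H _ κ R (hψ q).isAct hO hNo hR hu (zo_congr hκ fun g hg => by
      rw [((mH g).1 hg).2.1, ((mH g).1 hg).2.2, one_pow, one_pow, one_mul])
  choose y hyz hye using hy
  have hB : ∀ q : ℕ × ℕ, B2 H aU fun g h => iot1 p (x g * y q h) := by
    intro q
    by_cases hq : ∀ g ∈ DG V, θ g * (θ g ^ q.1 * om p g ^ q.2) = om p g
    · have h4 := hcon x (y q) hx (zo_congr (hyz q) fun g hg =>
        mul_left_cancel₀ (char_ne hθ hg) ((e g hg).trans (hq g hg).symm))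
      refine (h4.mono hO.1).congr fun g hg k _ => ?_
      have : θ' g = 1 := by simpa [((mH g).1 hg).2.1, ((mH g).1 hg).2.2] using e g (hO.1 hg)
      rw [this, one_mul]
    · push Not at hq
      have hχ := char_mul hθ (hψ q)
      have hz := (h3.cup (ZMod p) (ZMod p) (ZMod p) (DG V) _ _ _ AddMonoidHom.mul x (y q)
        ⟨hθ.isAct, (hψ q).isAct, hχ.isAct, fun g _ s t => by
          simp only [AddMonoidHom.mul_apply, mulAct_apply]; ring⟩ hx (hyz q)).1
      have h4 := ((hh p V _ hVt hχ hq _ hz).mono hO.1).map (a' := aU) (iot1 p) fun g hg m => by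
        rw [aU_iot1, mulAct_apply, ((mH g).1 hg).2.1, ((mH g).1 hg).2.2, one_pow, one_pow, one_mul,
          one_mul]
      refine h4.congr fun g hg k _ => ?_
      rw [AddMonoidHom.mul_apply, mulAct_apply, ((mH g).1 hg).2.1, ((mH g).1 hg).2.2, one_pow,
        one_pow, one_mul, one_mul]
  have hsum : ∀ h ∈ H, ∑ q ∈ range (p - 1) ×ˢ range (p - 1), y q h = κ h := by
    intro h hh'
    obtain ⟨r₀, ⟨hr₀, hr₀'⟩, huniq⟩ := hu 1 (DG V).one_mem
    have hrH : r₀ ∈ H := by simpa using H.inv_mem hr₀'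
    rw [sum_congr rfl fun q _ => hye q h hh', sum_comm]
    have e1 : ∀ r ∈ R, ∑ q ∈ range (p - 1) ×ˢ range (p - 1),
        θ r ^ q.1 * om p r ^ q.2 * κ (r⁻¹ * h * r) =
        (if θ r = 1 then -1 else 0) * (if om p r = 1 then -1 else 0) * κ (r⁻¹ * h * r) := by
      intro r hr
      rw [← sum_mul, sum_product' _ _ fun i j => θ r ^ i * om p r ^ j, ← sum_mul_sum,
        geom _ (char_ne hθ (hR r hr)), geom _ (char_ne ho (hR r hr))]
    rw [sum_congr rfl e1, sum_eq_single_of_mem r₀ hr₀ fun r hr hne' => ?_]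
    · have h4 := hκa _ (H.inv_mem hrH) _ hrH
      rw [inv_mul_cancel, hκ.map_one (isChar_om p H).isAct] at h4
      rw [if_pos ((mH r₀).1 hrH).2.1, if_pos ((mH r₀).1 hrH).2.2,
        hκa _ (H.mul_mem (H.inv_mem hrH) hh') _ hrH, hκa _ (H.inv_mem hrH) _ hh']
      linear_combination -h4
    · split_ifs with a1 a2
      · exact absurd (huniq r ⟨hr, by simpa using (mH r).2 ⟨hR r hr, a1, a2⟩⟩) hne'
      all_goals simp
  have hBs : B2 H aU fun g h => iot1 p (x g * κ h) := by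
    have h4 : B2 H aU (∑ q ∈ range (p - 1) ×ˢ range (p - 1), fun g h => iot1 p (x g * y q h)) :=
      (B2G H aU).sum_mem fun q _ => hB q
    refine h4.congr fun g _ k hk => ?_
    rw [Finset.sum_apply, Finset.sum_apply, ← map_sum, ← mul_sum, hsum k hk]
  have hcyc := (cup_cyc hc (fun g hg => ((mH g).1 hg).2.2) hκ hκw).add hBs
  rw [sub_add_cancel] at hcyc
  obtain ⟨z, hz, hzn⟩ := h2.normOfCyc AU H H' aU p x σ _ (isAct_aU H) hc (h3.h90 H')
    (fun g hg => congrArg ofMul (Units.ext (hb g hg))) hcyc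
  refine hbn ⟨z.toMul, fun n hn => congrArg (fun u : AU => ((u.toMul : Qbˣ) : Qb)) (hz n hn), ?_⟩
  exact ofMul.injective ((ofMul_nrmU σ p z.toMul).trans hzn)

end Pool.Agent.MP_59efd2_nt.lz

end
end MrgPart0

-- ======== part 1: formerly Pool.Agent.MP_59efd2_nt.lz.Iwb
section MrgPart1

/-!
# Row IWB: global Iwasawa classes are isotropic
-/

noncomputable section

namespace Pool.Agent.MP_59efd2_nt.lz

open scoped Pointwise Classical

namespace IwbP

/-- The subgroup of `D` on which a cocycle vanishes. -/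
def zeroSub {A : Type} [AddCommGroup A] {D : Subgroup GQ} {a : GQ → A →+ A} (ha : IsAct D a)
    {c : GQ → A} (hc : Zo D a c) : Subgroup GQ where
  carrier := {g | g ∈ D ∧ c g = 0}
  mul_mem' := fun {g h} hg hh => ⟨D.mul_mem hg.1 hh.1, by
    rw [hc.2 g hg.1 h hh.1, hg.2, hh.2, map_zero, add_zero]⟩
  one_mem' := ⟨D.one_mem, hc.map_one ha⟩
  inv_mem' := fun {g} hg => ⟨D.inv_mem hg.1, by
    have h := hc.2 g⁻¹ (D.inv_mem hg.1) g hg.1
    rw [inv_mul_cancel, hc.map_one ha, hg.2, map_zero, add_zero] at h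
    exact h.symm⟩

lemma zeroSub_open {A : Type} [AddCommGroup A] {D : Subgroup GQ} {a : GQ → A →+ A}
    (ha : IsAct D a) {c : GQ → A} (hc : Zo D a c) : OpenIn (zeroSub ha hc) D := by
  obtain ⟨N, hN⟩ := hc.1
  refine ⟨fun g hg => hg.1, N, fun g hg hgN => ⟨hg, ?_⟩⟩
  have h := hN 1 D.one_mem g hg hgN
  rw [one_mul, hc.map_one ha] at h
  exact h

lemma zo_sub {A : Type} [AddCommGroup A] {D : Subgroup GQ} {a : GQ → A →+ A} {c e : GQ → A}
    (hc : Zo D a c) (he : Zo D a e) : Zo D a fun g => c g - e g :=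
  ⟨hc.1.comp₂ he.1 (· - ·), fun g hg h hh => by
    beta_reduce
    rw [hc.2 g hg h hh, he.2 g hg h hh, map_sub]; abel⟩

/-- The cup square of a cocycle that vanishes on a normal subgroup is inflated. -/
lemma infl_cup {A C : Type} [AddCommGroup A] [AddCommGroup C] {D H : Subgroup GQ}
    {a : GQ → A →+ A} {aC : GQ → C →+ C} {B : A →+ A →+ C} (hP : Pairing D a a aC B)
    {c : GQ → A} (hc : Zo D a c) (hle : H ≤ D) (hn : NormalIn H D) (h0 : ∀ n ∈ H, c n = 0) :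
    Infl D H aC fun g h => B (c g) (a g (c h)) := by
  have hr : ∀ g ∈ D, ∀ n ∈ H, c (g * n) = c g := fun g hg n hnH => by
    rw [hc.2 g hg n (hle hnH), h0 n hnH, map_zero, add_zero]
  have hconj : ∀ g ∈ D, ∀ n ∈ H, g⁻¹ * n * g ∈ H := fun g hg n hnH => by
    simpa using hn g⁻¹ (D.inv_mem hg) n hnH
  have hf : ∀ g ∈ D, ∀ n ∈ H, a n (c g) = c g := fun g hg n hnH => by
    have h1 := hc.2 n (hle hnH) g hg
    have h2 : n * g = g * (g⁻¹ * n * g) := by group
    rw [h0 n hnH, zero_add, h2, hr g hg _ (hconj g hg n hnH)] at h1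
    exact h1.symm
  intro g hg h hh n hnH
  refine ⟨?_, ?_, ?_⟩
  · beta_reduce
    rw [hr g hg n hnH, hP.act.mul g hg n (hle hnH), hf h hh n hnH]
  · beta_reduce
    rw [hr h hh n hnH]
  · beta_reduce
    have h2 : n * g = g * (g⁻¹ * n * g) := by group
    rw [← hP.eqv n (hle hnH), hf g hg n hnH, ← hP.act.mul n (hle hnH) g hg, h2,
      hP.act.mul g hg _ (hle (hconj g hg n hnH)), hf h hh _ (hconj g hg n hnH)]

/-- The cup square of a class that vanishes on inertia is locally trivial. -/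
lemma local_unr (h2 : Coh2Stmt) (h3 : Coh3Stmt) (hu : UnrStmt) (hun : UnStmt)
    {A : Type} [AddCommGroup A] (V : Pl) (hV : V ≠ ⊤) {a : GQ → A →+ A} {B : A →+ A →+ AU}
    (hP : Pairing (DG V) a a aU B) {N : ℕ} (hN : N ≠ 0) (hB : ∀ s t, N • B s t = 0)
    {c : GQ → A} (hc : Zo (DG V) a c) (hI : ∀ g ∈ IG V, c g = 0) :
    B2 (DG V) aU fun g h => B (c g) (a g (c h)) := by
  obtain ⟨H, d, x, σ, hH, hIH, hcyc⟩ := hu.cyc V (DG V) (zeroSub hP.act hc) hV (OpenIn.refl _)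
    (zeroSub_open hP.act hc) fun g hg => ⟨hg.2, hI g hg.1⟩
  have hZ := (h3.cup A A AU (DG V) a a aU B c c hP hc hc).1
  have hInf := infl_cup hP hc hcyc.le hcyc.normalIn fun n hn => (hH hn).2
  obtain ⟨hfix, hB2⟩ := h2.cycNf AU (DG V) H aU _ d x σ (isAct_aU _) hcyc hZ hInf
  set m : AU := ∑ i ∈ Finset.range d, B (c (σ ^ i)) (a (σ ^ i) (c σ)) with hm
  have hNm : N • m = 0 := by
    rw [hm, ← Finset.sum_nsmul]
    exact Finset.sum_eq_zero fun i _ => hB _ _
  have hpow : (m.toMul : Qbˣ) ^ N = 1 := by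
    rw [← toMul_nsmul, hNm, toMul_zero]
  have hval : V.valuation ((m.toMul : Qbˣ) : Qb) = 1 := by
    have h1 : V.valuation ((m.toMul : Qbˣ) : Qb) ^ N = 1 := by
      rw [← map_pow, ← Units.val_pow_eq_pow_val, hpow, Units.val_one, map_one]
    exact (pow_eq_one_iff_of_nonneg zero_le hN).1 h1
  have hmem : m.toMul ∈ fixU (DG V) := fun g hg =>
    congrArg (fun u : AU => ((u.toMul : Qbˣ) : Qb)) (hfix g hg)
  obtain ⟨y, hy, hym⟩ := hun V (DG V) H d x σ hV (OpenIn.refl _) hcyc hIH _ hmem hval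
  have hc2 := h2.cycOfNorm AU (DG V) H aU d x σ (Additive.ofMul y) (isAct_aU _) hcyc
    fun n hn => congrArg Additive.ofMul (Units.ext (hy n hn))
  rw [← ofMul_nrmU, hym, ofMul_toMul] at hc2
  refine (hB2.add hc2).congr fun g _ k _ => ?_
  simp

/-- The cup square of an unramified class is locally trivial. -/
lemma local_step (h2 : Coh2Stmt) (h3 : Coh3Stmt) (hu : UnrStmt) (hun : UnStmt)
    {A : Type} [AddCommGroup A] (V : Pl) (hV : V ≠ ⊤) {a : GQ → A →+ A} {B : A →+ A →+ AU}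
    (hP : Pairing (DG V) a a aU B) {N : ℕ} (hN : N ≠ 0) (hB : ∀ s t, N • B s t = 0)
    {c : GQ → A} (hc : Zo (DG V) a c) (hI : Bo (IG V) a c) :
    B2 (DG V) aU fun g h => B (c g) (a g (c h)) := by
  obtain ⟨m₀, hm₀⟩ := hI
  have hbe : Bo (DG V) a fun g => a g m₀ - m₀ := ⟨m₀, fun _ _ => rfl⟩
  have he := hbe.zo hP.act
  have hc0 := zo_sub hc he
  have b0 := local_unr h2 h3 hu hun V hV hP hN hB hc0 fun g hg => by
    rw [hm₀ g hg, sub_self]
  have b1 := (h3.cup A A AU (DG V) a a aU B _ _ hP hc0 he).2.2.1 hbe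
  have b2 := (h3.cup A A AU (DG V) a a aU B _ _ hP he hc).2.1 hbe
  refine ((b0.add b1).add b2).congr fun g _ k _ => ?_
  simp only [Pi.add_apply, map_sub, AddMonoidHom.sub_apply]
  abel

variable {p : ℕ} [Fact p.Prime]

/-- The pairing at level `n`. -/
def pairN (m : ℤ) (n : ℕ) (s t : Fin 2 → LamN p n) : LamN p n :=
  s 0 * starN p m n (t 1) - s 1 * starN p m n (t 0)

/-- One coefficient of the pairing at level `n`, with values in the roots of unity. -/
def pairB (m : ℤ) (n : ℕ) (γ : Gam p n) : (Fin 2 → LamN p n) →+ (Fin 2 → LamN p n) →+ AU :=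
  AddMonoidHom.mk' (fun s => AddMonoidHom.mk' (fun t => iot p n ((pairN m n s t).coeff γ))
    fun t t' => by
      have : pairN m n s (t + t') = pairN m n s t + pairN m n s t' := by
        simp only [pairN, Pi.add_apply, map_add]; ring
      rw [this, MonoidAlgebra.coeff_add, Finsupp.add_apply, map_add])
    fun s s' => AddMonoidHom.ext fun t => by
      have : pairN m n (s + s') t = pairN m n s t + pairN m n s' t := by
        simp only [pairN, Pi.add_apply]; ring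
      change iot p n ((pairN m n (s + s') t).coeff γ) =
        iot p n ((pairN m n s t).coeff γ) + iot p n ((pairN m n s' t).coeff γ)
      rw [this, MonoidAlgebra.coeff_add, Finsupp.add_apply, map_add]

lemma pairB_apply (m : ℤ) (n : ℕ) (γ : Gam p n) (s t : Fin 2 → LamN p n) :
    pairB m n γ s t = iot p n ((pairN m n s t).coeff γ) := rfl

lemma actN_apply (ρ : GQ →* GL (Fin 2) ℤ_[p]) (n : ℕ) (g : GQ) (s : Fin 2 → LamN p n)
    (i : Fin 2) : actN ρ n g s i = proj p n (grp p (chi p g)⁻¹) *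
      (proj p n (cst p ((ρ g : Matrix (Fin 2) (Fin 2) ℤ_[p]) i 0)) * s 0 +
        proj p n (cst p ((ρ g : Matrix (Fin 2) (Fin 2) ℤ_[p]) i 1)) * s 1) := by
  fin_cases i <;> simp [actN]

lemma pairN_act {m : ℤ} {ρ : GQ →* GL (Fin 2) ℤ_[p]}
    (hdet : ∀ g, Matrix.GeneralLinearGroup.det (ρ g) = chi p g ^ (1 - 2 * m)) (n : ℕ) (g : GQ)
    (s t : Fin 2 → LamN p n) :
    pairN m n (actN ρ n g s) (actN ρ n g t) =
      MonoidAlgebra.single 1 (chiN p n g : ZMod (p ^ n)) * pairN m n s t := by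
  have hc : ∀ x, starN p m n (proj p n (cst p x)) = proj p n (cst p x) := fun x => by
    rw [← proj_star, star_cst]
  have hd : (ρ g : Matrix (Fin 2) (Fin 2) ℤ_[p]) 0 0 * (ρ g : Matrix (Fin 2) (Fin 2) ℤ_[p]) 1 1 -
      (ρ g : Matrix (Fin 2) (Fin 2) ℤ_[p]) 0 1 * (ρ g : Matrix (Fin 2) (Fin 2) ℤ_[p]) 1 0 =
      ((chi p g ^ (1 - 2 * m) : ℤ_[p]ˣ) : ℤ_[p]) := by
    rw [← hdet g, Matrix.GeneralLinearGroup.val_det_apply, Matrix.det_fin_two]
  have hu : grp p (chi p g)⁻¹ * star p m (grp p (chi p g)⁻¹) *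
      cst p ((chi p g ^ (1 - 2 * m) : ℤ_[p]ˣ) : ℤ_[p]) = cst p (chi p g : ℤ_[p]) := by
    rw [star_grp, ← mul_assoc, ← map_mul, inv_inv, inv_mul_cancel, map_one, one_mul, ← map_mul,
      ← Units.val_mul, inv_zpow', ← zpow_add]
    congr 2
    rw [show - -(2 * m) + (1 - 2 * m) = 1 by ring, zpow_one]
  have hu' := congrArg (proj p n) hu
  rw [map_mul, map_mul, proj_star, ← hd, map_sub, map_mul, map_mul, map_sub, map_mul, map_mul,
    proj_cst p n (chi p g : ℤ_[p]), ← coe_chiN] at hu'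
  rw [← hu']
  simp only [pairN, actN_apply, map_mul, map_add, hc]
  ring

lemma pairing {m : ℤ} {ρ : GQ →* GL (Fin 2) ℤ_[p]} (hc : ContStmt) (hρ : Continuous ρ)
    (hdet : ∀ g, Matrix.GeneralLinearGroup.det (ρ g) = chi p g ^ (1 - 2 * m)) (n : ℕ)
    (γ : Gam p n) (H : Subgroup GQ) : Pairing H (actN ρ n) (actN ρ n) aU (pairB m n γ) :=
  ⟨(hc.actN p ρ hρ n).mono le_top, (hc.actN p ρ hρ n).mono le_top, isAct_aU H, fun g _ s t => by
    rw [pairB_apply, pairB_apply, pairN_act hdet, aU_iot, MonoidAlgebra.coeff_single_one_mul]⟩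

lemma pairB_tors (m : ℤ) (n : ℕ) (γ : Gam p n) (s t : Fin 2 → LamN p n) :
    p ^ n • pairB m n γ s t = 0 := by
  rw [pairB_apply, ← map_nsmul, nsmul_eq_mul, ZMod.natCast_self, zero_mul, map_zero]

end IwbP

open IwbP in
theorem iwb (h2 : Coh2Stmt) (h3 : Coh3Stmt) (hc : ContStmt) (_hv : ValStmt) (hu : UnrStmt)
    (hun : UnStmt) (hr : RecStmt) (hi : IwaStmt) : IwbStmt := by
  intro p _ hp m ρ hρ hdet c hcZ n γ
  have hz := hc.zG p ρ c hcZ n
  have hP := pairing hc hρ hdet n γ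
  have key : B2 ⊤ aU fun g h => pairB m n γ (fun i => proj p n (c g i))
      (actN ρ n g fun i => proj p n (c h i)) := by
    refine hr p hp _ (h3.cup _ _ AU ⊤ _ _ aU _ _ _ (hP ⊤) hz hz).1
      ⟨n, (b2_zero ⊤ aU).congr fun g _ k _ => pairB_tors m n γ _ _⟩ fun V hV hVp => ?_
    exact local_step h2 h3 hu hun V hV (hP _) (pow_pos (Fact.out : p.Prime).pos n).ne'
      (pairB_tors m n γ) (hz.mono le_top) (hi p ρ hρ c hcZ V hV hVp n)
  refine key.congr fun g _ k _ => ?_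
  rw [pairB_apply, ← proj_actG]
  simp only [pairL, pairN, map_sub, map_mul, proj_star]

end Pool.Agent.MP_59efd2_nt.lz

end
end MrgPart1

-- ======== part 2: formerly Pool.Agent.MP_59efd2_nt.lz.Cls
section MrgPart2

/-!
# Classes of cocycles: representatives
-/

noncomputable section

namespace Pool.Agent.MP_59efd2_nt.lz

variable {p : ℕ} [Fact p.Prime] {R : Type} [CommRing R] [TopologicalSpace R] [IsTopologicalRing R]
  (c : ℤ_[p] →+* R) (s : GQ → R)

/-- The class of a global cocycle. -/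
def mkG (ρ : GQ →* GL (Fin 2) ℤ_[p]) (S : Set ℕ) : UnrOut (act2 c s ρ) S →ₗ[R] HG c s ρ S :=
  Submodule.mkQ ((CobOn (act2 c s ρ) Set.univ).submoduleOf (UnrOut (act2 c s ρ) S))

/-- The class of a local cocycle. -/
def mkL (V : ValuationSubring Qb) (δ : V.decompositionSubgroup ℚ →* ℤ_[p]ˣ) :
    Cocyc (act1 c s V δ) →ₗ[R] HL c s V δ :=
  Submodule.mkQ ((CobOn (act1 c s V δ) Set.univ).submoduleOf (Cocyc (act1 c s V δ)))

lemma mkG_surj (ρ : GQ →* GL (Fin 2) ℤ_[p]) (S : Set ℕ) : Function.Surjective (mkG c s ρ S) :=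
  Submodule.mkQ_surjective _

lemma mkL_surj (V : ValuationSubring Qb) (δ : V.decompositionSubgroup ℚ →* ℤ_[p]ˣ) :
    Function.Surjective (mkL c s V δ) := Submodule.mkQ_surjective _

lemma act1_apply (V : ValuationSubring Qb) (δ : V.decompositionSubgroup ℚ →* ℤ_[p]ˣ)
    (g : V.decompositionSubgroup ℚ) (x : R) : act1 c s V δ g x = s g * c (δ g) * x := rfl

lemma mkL_eq_zero {V : ValuationSubring Qb} {δ : V.decompositionSubgroup ℚ →* ℤ_[p]ˣ}
    (x : Cocyc (act1 c s V δ)) :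
    mkL c s V δ x = 0 ↔ ∃ m, ∀ g, x.1 g = act1 c s V δ g m - m :=
  (Submodule.Quotient.mk_eq_zero _).trans
    (exists_congr fun _ => forall_congr' fun _ => ⟨fun h => h trivial, fun h _ => h⟩)

/-- A linear map on classes from a linear map on cocycles. -/
def liftL {V : ValuationSubring Qb} {δ : V.decompositionSubgroup ℚ →* ℤ_[p]ˣ} {N : Type}
    [AddCommGroup N] [Module R N] (f : Cocyc (act1 c s V δ) →ₗ[R] N)
    (hf : ∀ x : Cocyc (act1 c s V δ), (∃ m, ∀ g, x.1 g = act1 c s V δ g m - m) → f x = 0) :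
    HL c s V δ →ₗ[R] N :=
  Submodule.liftQ ((CobOn (act1 c s V δ) Set.univ).submoduleOf (Cocyc (act1 c s V δ))) f
    fun x hx => hf x (hx.imp fun _ h g => h g trivial)

lemma liftL_mk {V : ValuationSubring Qb} {δ : V.decompositionSubgroup ℚ →* ℤ_[p]ˣ} {N : Type}
    [AddCommGroup N] [Module R N] (f : Cocyc (act1 c s V δ) →ₗ[R] N)
    (hf : ∀ x : Cocyc (act1 c s V δ), (∃ m, ∀ g, x.1 g = act1 c s V δ g m - m) → f x = 0)
    (x : Cocyc (act1 c s V δ)) : liftL c s f hf (mkL c s V δ x) = f x := rfl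

/-- Localisation of cocycles. -/
def locC {ρ : GQ →* GL (Fin 2) ℤ_[p]} {V : ValuationSubring Qb}
    {δ : Fin 2 → (V.decompositionSubgroup ℚ →* ℤ_[p]ˣ)} (h : SplitsAs ρ V δ) (S : Set ℕ)
    (i : Fin 2) (z : UnrOut (act2 c s ρ) S) : Cocyc (act1 c s V (δ i)) :=
  ⟨resC _ (ContinuousLinearMap.proj i) z.1,
    resC_mem (unrOut_le _ S) (act_split c s h i) z.1 z.2⟩

lemma locC_apply {ρ : GQ →* GL (Fin 2) ℤ_[p]} {V : ValuationSubring Qb}
    {δ : Fin 2 → (V.decompositionSubgroup ℚ →* ℤ_[p]ˣ)} (h : SplitsAs ρ V δ) (S : Set ℕ)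
    (i : Fin 2) (z : UnrOut (act2 c s ρ) S) (g : V.decompositionSubgroup ℚ) :
    (locC c s h S i z).1 g = z.1 g i := rfl

lemma locAt_mk {ρ : GQ →* GL (Fin 2) ℤ_[p]} {V : ValuationSubring Qb}
    {δ : Fin 2 → (V.decompositionSubgroup ℚ →* ℤ_[p]ˣ)} (h : SplitsAs ρ V δ) (S : Set ℕ)
    (i : Fin 2) (z : UnrOut (act2 c s ρ) S) :
    (locAt c s h S i).hom (mkG c s ρ S z) = mkL c s V (δ i) (locC c s h S i z) := rfl

end Pool.Agent.MP_59efd2_nt.lz

end
end MrgPart2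

-- ======== part 3: formerly Pool.Agent.MP_59efd2_nt.lz.Final
section MrgPart3

/-!
# Row FINAL: from isotropy and non-degeneracy to the zero or pole
-/

noncomputable section

namespace Pool.Agent.MP_59efd2_nt.lz

open scoped Pointwise Classical

set_option linter.unusedSectionVars false
set_option maxHeartbeats 400000

namespace FinalP

/-- The algebraic heart of the argument. -/
lemma algebra_core {R K : Type} [CommRing R] [Field K] [CharZero K] (σ : R →+* R)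
    (hσ : ∀ x, σ (σ x) = x) (κ : R →+* K) (hκ : ∀ x, κ (σ x) = κ x) {a b u a' b' : R}
    (ha : a ∈ nonZeroDivisors R) (hw : a * σ b * u + σ (a * σ b * u) = 0) (hu : κ u ≠ 0)
    (ha' : κ a' ≠ 0) (hb' : κ b' ≠ 0) (hab : b * a' = a * b') : False := by
  have hσa : σ a ∈ nonZeroDivisors R := by
    rw [mem_nonZeroDivisors_iff_right] at ha ⊢
    intro x hx
    have h1 := congrArg σ hx
    rw [map_mul, hσ, map_zero] at h1
    rw [← hσ x, ha _ h1, map_zero]
  have hab' : σ b * σ a' = σ a * σ b' := by rw [← map_mul, ← map_mul, hab]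
  rw [map_mul, map_mul, hσ] at hw
  have h2 : (a' * σ b' * u + b' * σ a' * σ u) * (a * σ a) = 0 := by
    linear_combination (a' * σ a') * hw - a * a' * u * hab' - σ a * σ a' * σ u * hab
  have h3 := (mem_nonZeroDivisors_iff_right.1 (mul_mem ha hσa)) _ h2
  have h4 := congrArg κ h3
  simp only [map_add, map_mul, hκ, map_zero] at h4
  have h5 : (2 : K) * (κ a' * κ b' * κ u) = 0 := by linear_combination h4
  exact mul_ne_zero two_ne_zero (mul_ne_zero (mul_ne_zero ha' hb') hu) h5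

/-- A linear form passes to the localisation. -/
lemma loc_form {R A : Type} [CommRing R] [AddCommGroup A] [Module R A] (S : Submonoid R)
    (f : A →ₗ[R] R) {a₁ a₂ : A} {l : Localization S}
    (h : LocalizedModule.mk a₁ (1 : S) = l • LocalizedModule.mk a₂ (1 : S)) :
    algebraMap R (Localization S) (f a₁) = l * algebraMap R (Localization S) (f a₂) := by
  induction l using Localization.induction_on with
  | H y =>
    obtain ⟨r, s⟩ := y
    rw [LocalizedModule.mk_smul_mk, LocalizedModule.mk_eq] at h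
    obtain ⟨u, hu⟩ := h
    have h1 := congrArg f hu
    simp only [Submonoid.smul_def, map_smul, smul_eq_mul, mul_one, OneMemClass.coe_one,
      one_mul] at h1
    rw [← Localization.mk_one_eq_algebraMap, ← Localization.mk_one_eq_algebraMap,
      Localization.mk_mul, Localization.mk_eq_mk_iff, Localization.r_iff_exists]
    refine ⟨u, ?_⟩
    simp only [mul_one, OneMemClass.coe_one, one_mul]
    exact h1

/-- Every element of a localised module is a unit multiple of an integral one. -/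
lemma exists_int {R A : Type} [CommRing R] [AddCommGroup A] [Module R A] (S : Submonoid R)
    (z : LocalizedModule S A) : ∃ (a : A) (c : (Localization S)ˣ),
      z = (c : Localization S) • LocalizedModule.mk a (1 : S) := by
  induction z using LocalizedModule.induction_on with
  | h m s =>
    have hs : IsUnit (Localization.mk (1 : R) s) := by
      refine IsUnit.of_mul_eq_one (Localization.mk (s : R) 1) ?_
      rw [Localization.mk_mul, one_mul, mul_one, Localization.mk_self]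
    refine ⟨m, hs.unit, ?_⟩
    rw [IsUnit.unit_spec, LocalizedModule.mk_smul_mk, one_smul, mul_one]

variable {p : ℕ} [Fact p.Prime]

/-- The involution on `Λ_E`. -/
def starE (p : ℕ) [Fact p.Prime] (m : ℤ) : LamE p →+* LamE p :=
  Localization.awayLift ((algebraMap (Lam p) (LamE p)).comp (star p m)) (p : Lam p) (by
    rw [RingHom.comp_apply, map_natCast (star p m)]
    exact IsLocalization.Away.algebraMap_isUnit _)

lemma starE_alg (m : ℤ) (x : Lam p) :
    starE p m (algebraMap (Lam p) (LamE p) x) = algebraMap (Lam p) (LamE p) (star p m x) := by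
  unfold starE
  exact IsLocalization.Away.lift_eq _ _ _

lemma evalE_alg (j : ℤ) (x : Lam p) :
    evalE p j (algebraMap (Lam p) (LamE p) x) = (eval p j x : ℚ_[p]) := by
  unfold evalE
  exact IsLocalization.Away.lift_eq _ _ _

lemma starE_starE (m : ℤ) (x : LamE p) : starE p m (starE p m x) = x := by
  have : (starE p m).comp (starE p m) = RingHom.id _ :=
    IsLocalization.ringHom_ext (Submonoid.powers (p : Lam p)) (RingHom.ext fun y => by
      simp only [RingHom.comp_apply, starE_alg, star_star, RingHom.id_apply])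
  exact RingHom.congr_fun this x

lemma evalE_starE (m : ℤ) (x : LamE p) : evalE p m (starE p m x) = evalE p m x := by
  have : (evalE p m).comp (starE p m) = evalE p m :=
    IsLocalization.ringHom_ext (Submonoid.powers (p : Lam p)) (RingHom.ext fun y => by
      simp only [RingHom.comp_apply, starE_alg, evalE_alg, eval_star])
  exact RingHom.congr_fun this x

lemma sc_of_mem (V : Pl) (δ : DG V →* ℤ_[p]ˣ) {g : GQ} (hg : g ∈ DG V) :
    sc V δ g = grp p (chi p g)⁻¹ * cst p (δ ⟨g, hg⟩) := ext_of_mem _ _ hg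

lemma dbar_of_mem (V : Pl) (δ : DG V →* ℤ_[p]ˣ) {g : GQ} (hg : g ∈ DG V) :
    dbar V δ g = PadicInt.toZMod (δ ⟨g, hg⟩ : ℤ_[p]) := ext_of_mem _ _ hg

lemma om_ne_zero (g : GQ) : om p g ≠ 0 :=
  ((chi p g).isUnit.map PadicInt.toZMod).ne_zero

lemma toZMod_zpow (g : GQ) (j : ℤ) :
    PadicInt.toZMod ((chi p g ^ j : ℤ_[p]ˣ) : ℤ_[p]) = om p g ^ j := by
  have h := map_zpow ((Units.coeHom (ZMod p)).comp (Units.map (PadicInt.toZMod (p := p)).toMonoidHom))
    (chi p g) j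
  exact h

lemma ev1_sc (m : ℤ) (V : Pl) (δ : DG V →* ℤ_[p]ˣ) {g : GQ} (hg : g ∈ DG V) :
    ev1 p m (sc V δ g) = dbar V δ g * om p g ^ m := by
  rw [sc_of_mem V δ hg, dbar_of_mem V δ hg, ev1, RingHom.comp_apply, map_mul, eval_grp, eval_cst,
    map_mul, inv_zpow', neg_neg, toZMod_zpow, mul_comm]

lemma ev1_star (m : ℤ) (x : Lam p) : ev1 p m (star p m x) = ev1 p m x := by
  rw [ev1, RingHom.comp_apply, RingHom.comp_apply, eval_star]

/-- The product of two characters with product `χ^(1-2m)` pairs into `Λ(1)`. -/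
lemma sc_star {m : ℤ} {V : Pl} {δ δ' : DG V →* ℤ_[p]ˣ}
    (hd : ∀ g : DG V, δ g * δ' g = chi p g ^ (1 - 2 * m)) {g : GQ} (hg : g ∈ DG V) :
    sc V δ g * star p m (sc V δ' g) = cst p (chi p g) := by
  rw [sc_of_mem V δ hg, sc_of_mem V δ' hg, map_mul, star_grp, star_cst, inv_inv]
  have h1 : grp p (chi p g)⁻¹ * grp p (chi p g) = 1 := by rw [← map_mul, inv_mul_cancel, map_one]
  have h2 : δ ⟨g, hg⟩ * (chi p g)⁻¹ ^ (-(2 * m)) * δ' ⟨g, hg⟩ = chi p g := by
    rw [mul_right_comm, hd, inv_zpow', neg_neg, ← zpow_add]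
    simp
  have h3 : cst p (δ ⟨g, hg⟩) * cst p (((chi p g)⁻¹ ^ (-(2 * m)) : ℤ_[p]ˣ) : ℤ_[p]) *
      cst p (δ' ⟨g, hg⟩) = cst p (chi p g) := by
    rw [← map_mul, ← map_mul, ← Units.val_mul, ← Units.val_mul, h2]
  linear_combination (cst p (δ ⟨g, hg⟩) * cst p (((chi p g)⁻¹ ^ (-(2 * m)) : ℤ_[p]ˣ) : ℤ_[p]) *
      cst p (δ' ⟨g, hg⟩)) * h1 + h3

/-- The level `n` pairing `s, t ↦ s t^*`. -/
def BN (p : ℕ) [Fact p.Prime] (m : ℤ) (n : ℕ) : LamN p n →+ LamN p n →+ LamN p n :=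
  AddMonoidHom.mul.compl₂ (starN p m n).toAddMonoidHom

lemma BN_apply (m : ℤ) (n : ℕ) (s t : LamN p n) : BN p m n s t = s * starN p m n t := rfl

lemma pairing (hc : ContStmt) {m : ℤ} {V : Pl} {δ δ' : DG V →* ℤ_[p]ˣ} (h0 : Continuous δ)
    (h1 : Continuous δ') (hd : ∀ g : DG V, δ g * δ' g = chi p g ^ (1 - 2 * m)) (n : ℕ) :
    Pairing (DG V) (mulAct fun g => proj p n (sc V δ g)) (mulAct fun g => proj p n (sc V δ' g))
      (chiAct p n) (BN p m n) := by
  refine ⟨(hc.scN p V δ h0 n).isAct, (hc.scN p V δ' h1 n).isAct, hc.chiAct p _ n,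
    fun g hg s t => ?_⟩
  have h := congrArg (proj p n) (sc_star hd hg)
  rw [map_mul, proj_star, proj_cst] at h
  rw [BN_apply, BN_apply, chiAct, mulAct_apply, mulAct_apply, mulAct_apply, map_mul, coe_chiN, ← h]
  ring

/-- The cup product of two local cocycles. -/
def cupL (m : ℤ) (V : Pl) (δ' : DG V →* ℤ_[p]ˣ) (x y : DG V → Lam p) : GQ → GQ → Lam p :=
  fun g h => ext (DG V) 0 x g * star p m (sc V δ' g * ext (DG V) 0 y h)

lemma proj_cupL (m : ℤ) (V : Pl) (δ' : DG V →* ℤ_[p]ˣ) (x y : DG V → Lam p) (n : ℕ) (g h : GQ) :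
    proj p n (cupL m V δ' x y g h) = BN p m n (proj p n (ext (DG V) 0 x g))
      (mulAct (fun g => proj p n (sc V δ' g)) g (proj p n (ext (DG V) 0 y h))) := by
  rw [cupL, map_mul, proj_star, map_mul, BN_apply, mulAct_apply]

lemma ext_add {V : Pl} (x x' : DG V → Lam p) (g : GQ) :
    ext (DG V) 0 (x + x') g = ext (DG V) 0 x g + ext (DG V) 0 x' g := by
  by_cases hg : g ∈ DG V
  · simp only [ext_of_mem _ _ hg, Pi.add_apply]
  · simp [ext, hg]

lemma ext_smul {V : Pl} (l : Lam p) (x : DG V → Lam p) (g : GQ) :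
    ext (DG V) 0 (l • x) g = l * ext (DG V) 0 x g := by
  by_cases hg : g ∈ DG V
  · simp only [ext_of_mem _ _ hg, Pi.smul_apply, smul_eq_mul]
  · simp [ext, hg]

lemma bo_of_mem {V : Pl} {δ : DG V →* ℤ_[p]ˣ} {x : DG V → Lam p} (hx : x ∈ B1 (actL V δ))
    (n : ℕ) : Bo (DG V) (mulAct fun g => proj p n (sc V δ g))
      fun g => proj p n (ext (DG V) 0 x g) := by
  obtain ⟨v, rfl⟩ := hx
  refine ⟨proj p n v, fun g hg => ?_⟩
  have := actL_apply V δ ⟨g, hg⟩ v
  beta_reduce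
  rw [ext_of_mem _ _ hg, LinearMap.pi_apply, LinearMap.sub_apply, LinearMap.id_apply, this, map_sub,
    map_mul, mulAct_apply]

lemma chiAct_apply (n : ℕ) (g : GQ) (v : LamN p n) :
    chiAct p n g v = MonoidAlgebra.single 1 (chiN p n g : ZMod (p ^ n)) * v := by
  rw [chiAct, mulAct_apply]

lemma zz_star {m : ℤ} {H : Subgroup GQ} {F : GQ → GQ → Lam p} (hF : ZZ p H F) :
    ZZ p H fun g h => star p m (F g h) := fun n => by
  refine ((hF n).map (a' := chiAct p n) (starN p m n).toAddMonoidHom fun g _ v => ?_).congr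
    fun g _ k _ => proj_star p m n _
  rw [chiAct_apply, chiAct_apply, RingHom.toAddMonoidHom_eq_coe, AddMonoidHom.coe_coe, map_mul,
    starN_single, inv_one, one_zpow, Units.val_one, mul_one]

lemma zz_smul {H : Subgroup GQ} {F : GQ → GQ → Lam p} (hF : ZZ p H F) (l : Lam p) :
    ZZ p H fun g h => l * F g h := fun n => by
  refine ((hF n).map (a' := chiAct p n) (AddMonoidHom.mulLeft (proj p n l)) fun g _ v => ?_).congr
    fun g _ k _ => map_mul _ _ _
  rw [chiAct_apply, chiAct_apply, AddMonoidHom.coe_mulLeft, mul_left_comm]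

lemma zz_add {H : Subgroup GQ} {F F' : GQ → GQ → Lam p} (hF : ZZ p H F) (hF' : ZZ p H F') :
    ZZ p H (F + F') := fun n => ((hF n).add (hF' n)).congr fun _ _ _ _ => map_add _ _ _

/-- The properties of the local pairing. -/
structure PairP (m : ℤ) (V : Pl) (δ δ' : DG V →* ℤ_[p]ˣ)
    (P : Z1 (actL V δ) → Z1 (actL V δ') → Lam p) : Prop where
  add_left : ∀ x x' y, P (x + x') y = P x y + P x' y
  smul_left : ∀ (l : Lam p) x y, P (l • x) y = l * P x y
  add_right : ∀ x y y', P x (y + y') = P x y + P x y'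
  smul_right : ∀ (l : Lam p) x y, P x (l • y) = star p m l * P x y
  zero_left : ∀ x y, x.1 ∈ B1 (actL V δ) → P x y = 0
  zero_right : ∀ x y, y.1 ∈ B1 (actL V δ') → P x y = 0
  iso : ∀ x y, TrivBr p (DG V) (fun g h => cupL m V δ' x.1 y.1 g h - cupL m V δ y.1 x.1 g h) →
    P x y + star p m (P x y) = 0

lemma exists_pair (h3 : Coh3Stmt) (hc : ContStmt) (hi : InvStmt) {m : ℤ} {V : Pl} (hV : V ≠ ⊤)
    {δ δ' : DG V →* ℤ_[p]ˣ} (h0 : Continuous δ) (h1 : Continuous δ')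
    (hd : ∀ g : DG V, δ g * δ' g = chi p g ^ (1 - 2 * m))
    (x₀ : Z1 (actL V δ)) (y₀ : Z1 (actL V δ'))
    (hnd : ¬ B2 (DG V) aU fun g h => iot1 p (ev1 p m (cupL m V δ' x₀.1 y₀.1 g h))) :
    ∃ P, PairP m V δ δ' P ∧ ev1 p m (P x₀ y₀) ≠ 0 := by
  have hd' : ∀ g : DG V, δ' g * δ g = chi p g ^ (1 - 2 * m) := fun g => by rw [mul_comm, hd]
  have cup := fun (x : Z1 (actL V δ)) (y : Z1 (actL V δ')) (n : ℕ) =>
    h3.cup _ _ _ _ _ _ _ _ _ _ (pairing hc h0 h1 hd n) ((hc.zL p V δ x.1).1 x.2 n)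
      ((hc.zL p V δ' y.1).1 y.2 n)
  have zz : ∀ (x : Z1 (actL V δ)) (y : Z1 (actL V δ')), ZZ p (DG V) (cupL m V δ' x.1 y.1) :=
    fun x y n => (cup x y n).1.congr fun g _ k _ => proj_cupL _ _ _ _ _ _ _ _
  have zz' : ∀ (x : Z1 (actL V δ)) (y : Z1 (actL V δ')), ZZ p (DG V) (cupL m V δ y.1 x.1) :=
    fun x y n => (h3.cup _ _ _ _ _ _ _ _ _ _ (pairing hc h1 h0 hd' n) ((hc.zL p V δ' y.1).1 y.2 n)
      ((hc.zL p V δ x.1).1 x.2 n)).1.congr fun g _ k _ => proj_cupL _ _ _ _ _ _ _ _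
  obtain ⟨Inv, hadd, hmul, hstar, htriv, hbb, hne⟩ := hi p V m _ hV (zz x₀ y₀) hnd
  refine ⟨fun x y => Inv (cupL m V δ' x.1 y.1), ⟨fun x x' y => ?_, fun l x y => ?_,
    fun x y y' => ?_, fun l x y => ?_, fun x y hx => ?_, fun x y hy => ?_, fun x y hxy => ?_⟩, hne⟩
  · rw [← hadd _ _ (zz x y) (zz x' y)]
    congr 1
    funext g h
    simp only [cupL, Submodule.coe_add, ext_add, Pi.add_apply, add_mul]
  · rw [← hmul _ _ (zz x y)]
    congr 1
    funext g h
    simp only [cupL, Submodule.coe_smul, ext_smul, mul_assoc]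
  · rw [← hadd _ _ (zz x y) (zz x y')]
    congr 1
    funext g h
    simp only [cupL, Submodule.coe_add, ext_add, Pi.add_apply, mul_add, map_add]
  · rw [← hmul _ _ (zz x y)]
    congr 1
    funext g h
    simp only [cupL, Submodule.coe_smul, ext_smul, map_mul]
    ring
  · exact htriv _ (zz x y) (hbb _ fun n => ((cup x y n).2.1 (bo_of_mem hx n)).congr
      fun g _ k _ => proj_cupL _ _ _ _ _ _ _ _)
  · exact htriv _ (zz x y) (hbb _ fun n => ((cup x y n).2.2.1 (bo_of_mem hy n)).congr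
      fun g _ k _ => proj_cupL _ _ _ _ _ _ _ _)
  · have e1 : Inv (cupL m V δ' x.1 y.1) + star p m (Inv (cupL m V δ y.1 x.1)) = 0 := by
      rw [← hstar _ (zz' x y), ← hadd _ _ (zz x y) (zz_star (zz' x y))]
      refine htriv _ (zz_add (zz x y) (zz_star (zz' x y))) (hbb _ fun n =>
        (cup x y n).2.2.2.congr fun g _ k _ => ?_)
      rw [Pi.add_apply, Pi.add_apply, map_add, proj_cupL, cupL, map_mul (star p m), star_star,
        map_mul, map_mul, proj_star, BN_apply, BN_apply, mulAct_apply, mulAct_apply]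
      ring
    have e2 : Inv (cupL m V δ' x.1 y.1) + (-1) * Inv (cupL m V δ y.1 x.1) = 0 := by
      rw [← hmul _ _ (zz' x y), ← hadd _ _ (zz x y) (zz_smul (zz' x y) _)]
      refine htriv _ (zz_add (zz x y) (zz_smul (zz' x y) _)) ?_
      convert hxy using 1
      funext g h
      simp only [Pi.add_apply]
      ring
    have e3 : Inv (cupL m V δ y.1 x.1) = Inv (cupL m V δ' x.1 y.1) := by linear_combination -e2
    rwa [e3] at e1

/-- A bundled cocycle as a function. -/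
def toZ {V : Pl} {δ : DG V →* ℤ_[p]ˣ} (x : Cocyc (act1 (cst p) (taut p) V δ)) : Z1 (actL V δ) :=
  ⟨x.1, x.1.continuous, x.2⟩

/-- A cocycle as a bundled cocycle. -/
def ofZ {V : Pl} {δ : DG V →* ℤ_[p]ˣ} (x : Z1 (actL V δ)) : Cocyc (act1 (cst p) (taut p) V δ) :=
  ⟨⟨x.1, x.2.1⟩, x.2.2⟩

lemma toZ_mem {V : Pl} {δ : DG V →* ℤ_[p]ˣ} (x : Cocyc (act1 (cst p) (taut p) V δ))
    (hx : ∃ m, ∀ g, x.1 g = act1 (cst p) (taut p) V δ g m - m) : (toZ x).1 ∈ B1 (actL V δ) :=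
  hx.imp fun _ h => funext fun g => (h g).symm

/-- The pairing as a linear form in the first class. -/
def formL {m : ℤ} {V : Pl} {δ δ' : DG V →* ℤ_[p]ˣ} {P : Z1 (actL V δ) → Z1 (actL V δ') → Lam p}
    (hP : PairP m V δ δ' P) (y : Z1 (actL V δ')) : HL (cst p) (taut p) V δ →ₗ[Lam p] Lam p :=
  liftL (cst p) (taut p)
    { toFun := fun x => P (toZ x) y
      map_add' := fun x x' => hP.add_left (toZ x) (toZ x') y
      map_smul' := fun l x => hP.smul_left l (toZ x) y } fun x hx =>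
    hP.zero_left (toZ x) y (toZ_mem x hx)

/-- The conjugate pairing as a linear form in the second class. -/
def formR {m : ℤ} {V : Pl} {δ δ' : DG V →* ℤ_[p]ˣ} {P : Z1 (actL V δ) → Z1 (actL V δ') → Lam p}
    (hP : PairP m V δ δ' P) (x : Z1 (actL V δ)) : HL (cst p) (taut p) V δ' →ₗ[Lam p] Lam p :=
  liftL (cst p) (taut p)
    { toFun := fun y => star p m (P x (toZ y))
      map_add' := fun y y' => (congrArg _ (hP.add_right x (toZ y) (toZ y'))).trans (map_add _ _ _)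
      map_smul' := fun l y => (congrArg _ (hP.smul_right l x (toZ y))).trans (by
        rw [map_mul, star_star]; rfl) } fun y hy => by
      change star p m (P x (toZ y)) = 0
      rw [hP.zero_right x _ (toZ_mem y hy), map_zero]

/-- Sesquilinearity over `Λ_E`. -/
lemma pair_loc {m : ℤ} {V : Pl} {δ δ' : DG V →* ℤ_[p]ˣ}
    {P : Z1 (actL V δ) → Z1 (actL V δ') → Lam p} (hP : PairP m V δ δ' P)
    {x e : Cocyc (act1 (cst p) (taut p) V δ)} {y e' : Cocyc (act1 (cst p) (taut p) V δ')}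
    {s t : LamE p}
    (hx : LocalizedModule.mk (mkL (cst p) (taut p) V δ x) (1 : Submonoid.powers (p : Lam p)) =
      s • LocalizedModule.mk (mkL (cst p) (taut p) V δ e) 1)
    (hy : LocalizedModule.mk (mkL (cst p) (taut p) V δ' y) (1 : Submonoid.powers (p : Lam p)) =
      t • LocalizedModule.mk (mkL (cst p) (taut p) V δ' e') 1) :
    algebraMap (Lam p) (LamE p) (P (toZ x) (toZ y)) =
      s * starE p m t * algebraMap (Lam p) (LamE p) (P (toZ e) (toZ e')) := by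
  have h1 : algebraMap (Lam p) (LamE p) (P (toZ x) (toZ y)) =
      s * algebraMap (Lam p) (LamE p) (P (toZ e) (toZ y)) := loc_form _ (formL hP (toZ y)) hx
  have h2 : algebraMap (Lam p) (LamE p) (star p m (P (toZ e) (toZ y))) =
      t * algebraMap (Lam p) (LamE p) (star p m (P (toZ e) (toZ e'))) :=
    loc_form _ (formR hP (toZ e)) hy
  have h3 := congrArg (starE p m) h2
  rw [map_mul, starE_alg, starE_alg, star_star, star_star] at h3
  rw [h1, h3, mul_assoc]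

/-- The local data attached to a split representation. -/
lemma setup (hc : ContStmt) (hv : ValStmt) (hu : UnrStmt) (hn : NdStmt) (hl : LiftStmt)
    (hp : p ≠ 2) (m : ℤ) {ρ : GQ →* GL (Fin 2) ℤ_[p]} (hρ : Continuous ρ)
    (hdet : ∀ g, Matrix.GeneralLinearGroup.det (ρ g) = chi p g ^ (1 - 2 * m)) {V : Pl}
    (hVp : Above V p) {δ : Fin 2 → (DG V →* ℤ_[p]ˣ)} (h : SplitsAs ρ V δ) {β : ℤ_[p]}
    (hβ : UnramWith V (δ 1) β) (hβ1 : ¬ (p : ℤ_[p]) ∣ β - 1) :
    (∀ i, Continuous (δ i)) ∧ (∀ g : DG V, δ 0 g * δ 1 g = chi p g ^ (1 - 2 * m)) ∧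
      (∃ g ∈ DG V, om p g = 1 ∧ dbar V (δ 0) g ≠ 1 ∧ dbar V (δ 1) g ≠ 1) ∧
      ∃ (x₀ : Z1 (actL V (δ 0))) (y₀ : Z1 (actL V (δ 1))),
        ¬ B2 (DG V) aU fun g h => iot1 p (ev1 p m (cupL m V (δ 1) x₀.1 y₀.1 g h)) := by
  have hpp : p.Prime := Fact.out
  have hV : V ≠ ⊤ := hv.above_ne V p hpp.ne_zero hVp
  have hent : ∀ (i : Fin 2) (g : DG V), (δ i g : ℤ_[p]) =
      (ρ g : Matrix (Fin 2) (Fin 2) ℤ_[p]) i i := fun i g => by
    rw [h g, Matrix.diagonal_apply_eq]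
  have hcont : ∀ i, Continuous (δ i) := fun i => by
    have h1 : Continuous fun g : DG V => (δ i g : ℤ_[p]) := by
      simp only [hent]
      exact (Units.continuous_val.comp (hρ.comp continuous_subtype_val)).matrix_elem i i
    refine Units.continuous_iff.2 ⟨h1, ?_⟩
    simp only [← map_inv]
    exact h1.comp continuous_inv
  have hd : ∀ g : DG V, δ 0 g * δ 1 g = chi p g ^ (1 - 2 * m) := fun g => by
    rw [← hdet]
    ext
    rw [Matrix.GeneralLinearGroup.val_det_apply, h g, Matrix.det_diagonal, Fin.prod_univ_two,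
      Units.val_mul]
  have hdb : ∀ g ∈ DG V, dbar V (δ 0) g * dbar V (δ 1) g = om p g ^ (1 - 2 * m) := fun g hg => by
    rw [dbar_of_mem V _ hg, dbar_of_mem V _ hg, ← map_mul, ← Units.val_mul, hd, toZMod_zpow]
  obtain ⟨φ, hφ⟩ := hu.frob V p hpp hVp
  obtain ⟨i, hiI, hio⟩ := hu.ramp p V hVp (om p φ) (om_ne_zero φ)
  have hiD : i ∈ DG V := IG_le V hiI
  have hgD : φ⁻¹ * i ∈ DG V := (DG V).mul_mem ((DG V).inv_mem hφ.1) hiD
  have hg1 : om p (φ⁻¹ * i) = 1 := by rw [om_mul, hio, ← om_mul, inv_mul_cancel, om_one]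
  have hg2 : dbar V (δ 1) (φ⁻¹ * i) ≠ 1 := by
    have e1 : (⟨φ⁻¹ * i, hgD⟩ : DG V) = (⟨φ, hφ.1⟩ : DG V)⁻¹ * ⟨i, hiD⟩ := rfl
    rw [dbar_of_mem V _ hgD, e1, map_mul, hβ.1 _ ((mem_IG ⟨i, hiD⟩).1 hiI), mul_one]
    have e2 : ((δ 1 (⟨φ, hφ.1⟩ : DG V)⁻¹ : ℤ_[p]ˣ) : ℤ_[p]) = β := hβ.2 ⟨φ, hφ.1⟩ hφ
    rw [e2]
    intro h1
    apply hβ1
    rw [← Ideal.mem_span_singleton, ← PadicInt.maximalIdeal_eq_span_p, ← PadicInt.ker_toZMod,
      RingHom.mem_ker, map_sub, h1, map_one, sub_self]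
  have hg3 : dbar V (δ 0) (φ⁻¹ * i) ≠ 1 := fun h1 => hg2 (by
    have := hdb _ hgD
    rwa [h1, one_mul, hg1, one_zpow] at this)
  have hch : ∀ i, IsChar (DG V) fun g => dbar V (δ i) g * om p g ^ m := fun i => by
    have c1 := hc.dbar p V (δ i) (hcont i)
    refine ⟨by rw [c1.one, om_one, one_zpow, mul_one], fun g hg k hk => ?_,
      c1.smooth.comp₂ (isChar_om p _).smooth fun s t => s * t ^ m⟩
    rw [c1.mul g hg k hk, om_mul, mul_zpow]; ring
  obtain ⟨x₁, y₁, hx₁, hy₁, hnd⟩ := hn p hp V _ _ hVp (hch 0) (hch 1) fun g hg => by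
    rw [mul_mul_mul_comm, hdb g hg, ← zpow_add₀ (om_ne_zero g), ← zpow_add₀ (om_ne_zero g)]
    have : 1 - 2 * m + (m + m) = 1 := by ring
    rw [this, zpow_one]
  obtain ⟨x₀, hx₀, hxe⟩ := hl p V (δ 0) hV (hcont 0) ⟨_, hgD, hg1, hg3⟩ m x₁ hx₁
  obtain ⟨y₀, hy₀, hye⟩ := hl p V (δ 1) hV (hcont 1) ⟨_, hgD, hg1, hg2⟩ m y₁ hy₁
  exact ⟨hcont, hd, ⟨_, hgD, hg1, hg3, hg2⟩, ⟨x₀, hx₀⟩, ⟨y₀, hy₀⟩,
    fun hB => hnd (hB.congr fun g hg k hk => by
      rw [cupL, map_mul (ev1 p m), ev1_star, map_mul (ev1 p m), ev1_sc m V _ hg, ext_of_mem _ _ hg,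
        ext_of_mem _ _ hk, hxe, hye])⟩

end FinalP

open FinalP in
theorem final (h3 : Coh3Stmt) (hc : ContStmt) (hv : ValStmt) (hu : UnrStmt) (hn : NdStmt)
    (hl : LiftStmt) (hb : IwbStmt) (hi : InvStmt) : GeneralStmt := by
  intro p _ hp m ρ hρ hdet V hVp δ h β hβ hβ1 S
  have hV : V ≠ ⊤ := hv.above_ne V p (Fact.out : p.Prime).ne_zero hVp
  obtain ⟨hcont, hd, -, x₀, y₀, hnd⟩ := setup hc hv hu hn hl hp m hρ hdet hVp h hβ hβ1
  obtain ⟨P, hP, hne⟩ := exists_pair h3 hc hi hV (hcont 0) (hcont 1) hd x₀ y₀ hnd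
  intro z eα eβ a b hα hβ' hza hzb ha ⟨a', b', ha', hb', hab⟩
  obtain ⟨z₀, cz, rfl⟩ := exists_int _ z
  obtain ⟨e₀, c₀, rfl⟩ := exists_int _ eα
  obtain ⟨e₁, c₁, rfl⟩ := exists_int _ eβ
  obtain ⟨z₀, rfl⟩ := mkG_surj _ _ _ _ z₀
  obtain ⟨e₀, rfl⟩ := mkL_surj _ _ _ _ e₀
  obtain ⟨e₁, rfl⟩ := mkL_surj _ _ _ _ e₁
  rw [map_smul, LocalizedModule.map_mk, locAt_mk, smul_smul] at hza hzb
  have hza' := congrArg (fun w => ((cz⁻¹ : (LamE p)ˣ) : LamE p) • w) hza
  have hzb' := congrArg (fun w => ((cz⁻¹ : (LamE p)ˣ) : LamE p) • w) hzb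
  simp only [smul_smul, Units.inv_mul, one_smul] at hza' hzb'
  have hw := pair_loc hP hza' hzb'
  have hz₀ : ⇑z₀.1 ∈ Z1 (actG ρ) := ⟨z₀.1.continuous, unrOut_le _ S z₀.2⟩
  have hiso := hP.iso (toZ (locC _ _ h S 0 z₀)) (toZ (locC _ _ h S 1 z₀)) fun n γ =>
    ((hb p hp m ρ hρ hdet z₀.1 hz₀ n γ).mono le_top).congr fun g hg k hk => by
      have e0 := actG_apply_of_splits h 0 ⟨g, hg⟩ (z₀.1 k)
      have e1 := actG_apply_of_splits h 1 ⟨g, hg⟩ (z₀.1 k)
      rw [actL_apply] at e0 e1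
      beta_reduce
      rw [cupL, cupL, ext_of_mem _ _ hg, ext_of_mem _ _ hg, ext_of_mem _ _ hk, ext_of_mem _ _ hk,
        pairL, e0, e1]
      rfl
  have hiso' := congrArg (algebraMap (Lam p) (LamE p)) hiso
  rw [map_add, ← starE_alg, hw, map_zero] at hiso'
  obtain ⟨s, hs⟩ := Submodule.mem_span_singleton.1 (Submodule.eq_top_iff'.1 hα
    (LocalizedModule.mk (mkL _ _ V (δ 0) (ofZ x₀)) 1))
  obtain ⟨t, ht⟩ := Submodule.mem_span_singleton.1 (Submodule.eq_top_iff'.1 hβ'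
    (LocalizedModule.mk (mkL _ _ V (δ 1) (ofZ y₀)) 1))
  rw [smul_smul] at hs ht
  have hu0 : evalE p m (algebraMap (Lam p) (LamE p) (P (toZ e₀) (toZ e₁))) ≠ 0 := fun h0 => by
    have := congrArg (evalE p m) (pair_loc hP hs.symm ht.symm)
    rw [map_mul, h0, mul_zero, evalE_alg, PadicInt.coe_eq_zero] at this
    exact hne (by rw [ev1, RingHom.comp_apply]; exact (congrArg _ this).trans (map_zero _))
  have hun : ∀ c : (LamE p)ˣ, evalE p m c ≠ 0 := fun c => (c.isUnit.map (evalE p m)).ne_zero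
  refine algebra_core (starE p m) (starE_starE m) (evalE p m) (evalE_starE m)
    (u := ((cz⁻¹ * c₀ : (LamE p)ˣ) : LamE p) * starE p m ((cz⁻¹ * c₁ : (LamE p)ˣ) : LamE p) *
      algebraMap (Lam p) (LamE p) (P (toZ e₀) (toZ e₁))) ha ?_ ?_ ha' hb' hab
  · have e : a * starE p m b * (((cz⁻¹ * c₀ : (LamE p)ˣ) : LamE p) *
        starE p m ((cz⁻¹ * c₁ : (LamE p)ˣ) : LamE p) *
          algebraMap (Lam p) (LamE p) (P (toZ e₀) (toZ e₁))) =
        ((cz⁻¹ : (LamE p)ˣ) : LamE p) * (a * c₀) *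
          starE p m (((cz⁻¹ : (LamE p)ˣ) : LamE p) * (b * c₁)) *
          algebraMap (Lam p) (LamE p) (P (toZ e₀) (toZ e₁)) := by
      simp only [Units.val_mul, map_mul]
      ring
    rw [e]
    exact hiso'
  · rw [map_mul, map_mul, evalE_starE]
    exact mul_ne_zero (mul_ne_zero (hun _) (hun _)) hu0

end Pool.Agent.MP_59efd2_nt.lz

end
end MrgPart3

-- ======== part 4: formerly Pool.Agent.MP_59efd2_nt.sel.Loc1
section MrgPart4

/-!
# The local cohomology of a character modulo `p` is a line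
-/

noncomputable section

namespace Pool.Agent.MP_59efd2_nt.lz

open scoped Pointwise Classical
open Additive Finset

set_option linter.unusedSectionVars false

/-- `H¹(D, 𝔽_p(θ))` is spanned by any non-zero class. -/
def Loc1Stmt : Prop :=
  ∀ (p : ℕ) [Fact p.Prime], p ≠ 2 → ∀ (V : Pl) (θ θ' : GQ → ZMod p), Above V p →
    IsChar (DG V) θ → IsChar (DG V) θ' → (∀ g ∈ DG V, θ g * θ' g = om p g) →
    (∃ g ∈ DG V, om p g = 1 ∧ θ g ≠ 1) →
    ∀ x₀ x, Zo (DG V) (mulAct θ) x₀ → ¬ Bo (DG V) (mulAct θ) x₀ → Zo (DG V) (mulAct θ) x →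
      ∃ s : ZMod p, Bo (DG V) (mulAct θ) fun g => x g - s * x₀ g

namespace Loc1P

open NdP

variable {p : ℕ} [hp : Fact p.Prime]

/-- Coboundaries on `H`. -/
def BS (H : Subgroup GQ) (θ : GQ → ZMod p) : Submodule (ZMod p) (GQ → ZMod p) where
  carrier := {c | Bo H (mulAct θ) c}
  add_mem' := fun {a b} ⟨v, hv⟩ ⟨w, hw⟩ => ⟨v + w, fun g hg => by
    rw [Pi.add_apply, hv g hg, hw g hg, map_add]; abel⟩
  zero_mem' := ⟨0, fun _ _ => by simp⟩
  smul_mem' := fun r a ⟨v, hv⟩ => ⟨r * v, fun g hg => by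
    rw [Pi.smul_apply, hv g hg, mulAct_apply, mulAct_apply, smul_eq_mul]; ring⟩

/-- Cocycles on `H`. -/
def ZS (H : Subgroup GQ) (θ : GQ → ZMod p) : Submodule (ZMod p) (GQ → ZMod p) where
  carrier := {c | Zo H (mulAct θ) c}
  add_mem' := fun {a b} ha hb => ⟨ha.1.comp₂ hb.1 (· + ·), fun g hg k hk => by
    simp only [Pi.add_apply, ha.2 g hg k hk, hb.2 g hg k hk, map_add]; abel⟩
  zero_mem' := ⟨sm1_const H 0, fun _ _ _ _ => by simp⟩
  smul_mem' := fun r a ha => ⟨ha.1.comp (r * ·), fun g hg k hk => by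
    simp only [Pi.smul_apply, ha.2 g hg k hk, mulAct_apply, smul_eq_mul]; ring⟩

lemma conj_eq {D : Subgroup GQ} {θ c : GQ → ZMod p} (hc : Zo D (mulAct θ) c) {r h : GQ}
    (hr : r ∈ D) (hh : h ∈ D) : θ r * c (r⁻¹ * h * r) = c h + (θ h - 1) * c r := by
  have h1 := hc.2 h hh r hr
  have h2 := hc.2 r hr _ (D.mul_mem (D.mul_mem (D.inv_mem hr) hh) hr)
  rw [show r * (r⁻¹ * h * r) = h * r by group, h1, mulAct_apply, mulAct_apply] at h2
  linear_combination -h2

lemma char_conj {D : Subgroup GQ} {θ : GQ → ZMod p} (hθ : IsChar D θ) {r h : GQ}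
    (hr : r ∈ D) (hh : h ∈ D) : θ (r⁻¹ * h * r) = θ h := by
  rw [hθ.mul _ (D.mul_mem (D.inv_mem hr) hh) r hr, hθ.mul _ (D.inv_mem hr) h hh]
  linear_combination θ h * char_inv hθ hr

/-- Restriction to a normal subgroup that acts non-trivially is injective. -/
lemma res_inj {D H : Subgroup GQ} {θ c : GQ → ZMod p} (hθ : IsChar D θ) (hle : H ≤ D)
    (hn : ∀ r ∈ D, ∀ h ∈ H, r⁻¹ * h * r ∈ H) {h₀ : GQ} (h0 : h₀ ∈ H) (hne : θ h₀ ≠ 1)
    (hc : Zo D (mulAct θ) c) (hb : Bo H (mulAct θ) c) : Bo D (mulAct θ) c := by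
  obtain ⟨m, hm⟩ := hb
  refine ⟨m, fun g hg => ?_⟩
  have h1 := conj_eq hc hg (hle h0)
  rw [hm _ (hn g hg h₀ h0), hm h₀ h0, mulAct_apply, mulAct_apply, char_conj hθ hg (hle h0)] at h1
  refine mul_left_cancel₀ (sub_ne_zero.2 hne) ?_
  rw [mulAct_apply]
  linear_combination -h1

/-- The cyclic structure of the image of a character. -/
lemma exists_cyc {D : Subgroup GQ} {ψ : GQ → ZMod p} (hψ : IsChar D ψ) :
    ∃ (d : ℕ) (x : GQ → ZMod d) (σ : GQ), Cyc D (ker2 hψ hψ) d x σ ∧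
      ∀ i < d, ∀ j < d, ψ σ ^ i = ψ σ ^ j → i = j := by
  obtain ⟨⟨_, σ, rfl⟩, hσ⟩ := IsCyclic.exists_monoid_generator (α := (hom hψ).range)
  have hex : ∀ g : D, ∃ j : ℕ, hom hψ σ ^ j = hom hψ g := fun g => by
    obtain ⟨j, hj⟩ := hσ ⟨_, g, rfl⟩
    exact ⟨j, congrArg Subtype.val hj⟩
  choose lg hlg using hex
  have key : ∀ (g : D) (j : ℕ), (lg g : ZMod (orderOf (hom hψ σ))) = j ↔
      hom hψ σ ^ j = hom hψ g := fun g j => by
    rw [ZMod.natCast_eq_natCast_iff, ← pow_eq_pow_iff_modEq, hlg, eq_comm]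
  refine ⟨orderOf (hom hψ σ), ext D 0 fun g => lg g, σ, ⟨orderOf_pos _, fun g hg k hk => ?_,
    fun g => ?_, σ.2, ?_, ker2_open hψ hψ⟩, fun i hi j hj e => ?_⟩
  · rw [ext_of_mem _ _ (D.mul_mem hg hk), ext_of_mem _ _ hg, ext_of_mem _ _ hk, ← Nat.cast_add,
      key, pow_add, hlg, hlg, ← map_mul]
    rfl
  · refine ⟨fun h => ⟨h.1, ?_⟩, fun h => ?_⟩
    · rw [ext_of_mem _ _ h.1, ← Nat.cast_zero, key, pow_zero]
      exact Units.ext h.2.1.symm
    · obtain ⟨h1, h2⟩ := h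
      rw [ext_of_mem _ _ h1, ← Nat.cast_zero, key, pow_zero] at h2
      have h3 : ψ g = 1 := (congrArg Units.val h2).symm
      exact ⟨h1, h3, h3⟩
  · rw [ext_coe, ← Nat.cast_one, key, pow_one]
  · refine pow_injOn_Iio_orderOf hi hj (Units.ext ?_)
    rw [Units.val_pow_eq_pow_val, Units.val_pow_eq_pow_val]
    exact e

lemma char_inv' {D : Subgroup GQ} {θ : GQ → ZMod p} (h : IsChar D θ) :
    IsChar D fun g => (θ g)⁻¹ :=
  ⟨by rw [h.one, inv_one], fun g hg k hk => by rw [h.mul g hg k hk, mul_inv],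
    h.smooth.comp (·⁻¹)⟩

lemma char_gpow {D : Subgroup GQ} {θ : GQ → ZMod p} (h : IsChar D θ) {g : GQ} (hg : g ∈ D)
    (j : ℕ) : θ (g ^ j) = θ g ^ j := by
  induction j with
  | zero => rw [pow_zero, pow_zero, h.one]
  | succ j ih => rw [pow_succ, h.mul _ (D.pow_mem hg j) g hg, ih, pow_succ]

/-- The kernel of `ψ` does not fix the `p`-th roots of unity. -/
lemma exists_move (hu : UnrStmt) {V : Pl} (hV : Above V p) {ψ : GQ → ZMod p}
    (hψ : IsChar (DG V) ψ) {d : ℕ} {x : GQ → ZMod d} {σ : GQ}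
    (hc : Cyc (DG V) (ker2 hψ hψ) d x σ) {g : GQ} (hg : g ∈ DG V) (h1 : om p g = 1)
    (h2 : ψ g ≠ 1) : ∃ h ∈ ker2 hψ hψ, om p h ≠ 1 := by
  by_contra hcon
  push Not at hcon
  have ho := isChar_om p (DG V)
  have dec : ∀ (θ : GQ → ZMod p), IsChar (DG V) θ → (∀ h ∈ ker2 hψ hψ, θ h = 1) →
      ∀ k ∈ DG V, θ k = θ σ ^ (x k).val := fun θ hθ h0 k hk => by
    have h3 := hc.decomp hk
    have h4 := hθ.mul _ ((DG V).pow_mem hc.mem (x k).val) _ (hc.le h3)
    rw [mul_inv_cancel_left, h0 _ h3, mul_one, char_gpow hθ hc.mem] at h4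
    exact h4
  obtain ⟨γ, hγ⟩ := IsCyclic.exists_monoid_generator (α := (ZMod p)ˣ)
  obtain ⟨i, hi, hio⟩ := hu.ramp p V hV γ γ.ne_zero
  have e1 := dec _ ho hcon i (IG_le V hi)
  have e2 := dec _ ho hcon g hg
  have e3 : γ ^ (x g).val = 1 := Units.ext (by
    rw [Units.val_pow_eq_pow_val, ← hio, e1, ← pow_mul, mul_comm, pow_mul, ← e2, h1, one_pow,
      Units.val_one])
  obtain ⟨j, hj⟩ := hγ (Units.mk0 _ (char_ne hψ hc.mem))
  have e4 : ψ σ = (γ : ZMod p) ^ j := by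
    rw [← Units.val_pow_eq_pow_val]; exact (congrArg Units.val hj).symm
  apply h2
  rw [dec _ hψ (fun h hh => hh.2.1) g hg, e4, ← pow_mul, mul_comm, pow_mul,
    ← Units.val_pow_eq_pow_val, e3, Units.val_one, one_pow]

lemma tor_le_one {H : Subgroup GQ} {h : GQ} (hh : h ∈ H) (hne : om p h ≠ 1) :
    tor p (fixU H) ≤ 1 := by
  have : (fixU H ⊓ (powMonoidHom p).ker : Subgroup Qbˣ) = ⊥ := by
    refine (Subgroup.eq_bot_iff_forall _).2 fun u hu => ?_
    obtain ⟨t, ht⟩ := exists_iot1 p (u := u) hu.2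
    have h1 := aU_iot1 p h t
    have h2 : sU h u = u := Units.ext (hu.1 h hh)
    rw [ht, aU_ofMul, h2, ← ht] at h1
    have h3 : (om p h - 1) * t = 0 := by linear_combination -(iot1_injective p h1)
    rw [(mul_eq_zero.1 h3).resolve_left (sub_ne_zero.2 hne), map_zero] at ht
    exact (congrArg Additive.toMul ht).symm
  rw [tor, this, Subgroup.card_bot]

/-- Kummer theory bounds the number of classes. -/
lemma card_le (h3 : Coh3Stmt) {H : Subgroup GQ} (hfin : pw p (fixU H) ≠ 0) {X : Type}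
    (κ : X → GQ → ZMod p) (hκ : ∀ a, κ a ∈ ZS H (om p))
    (hinj : ∀ a b, κ a - κ b ∈ BS H (om p) → a = b) : Nat.card X ≤ pw p (fixU H) := by
  choose w hw hκw using fun a => h3.kumTo1 p H (κ a) (hκ a)
  have : Finite (fixU H ⧸ ((fixU H).map (powMonoidHom p)).subgroupOf (fixU H)) :=
    Nat.finite_of_card_ne_zero hfin
  refine Nat.card_le_card_of_injective (fun a => (QuotientGroup.mk ⟨w a ^ p, hw a⟩ :
    fixU H ⧸ ((fixU H).map (powMonoidHom p)).subgroupOf (fixU H))) fun a b hab => ?_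
  obtain ⟨c, hc, hce⟩ := QuotientGroup.eq.1 hab
  have e1 : c ^ p = (w a ^ p)⁻¹ * w b ^ p := hce
  obtain ⟨m, hm⟩ := exists_iot1 p (u := w a * c / w b) (by
    rw [div_pow, mul_pow, e1, mul_inv_cancel_left, div_self'])
  refine hinj a b ⟨m, fun g hg => iot1_injective p ?_⟩
  have e2 : sU g c = c := Units.ext (hc g hg)
  rw [Pi.sub_apply, map_sub, map_sub, hκw a g hg, hκw b g hg, mulAct_apply, ← aU_iot1, hm,
    aU_ofMul, map_div (sU g), map_mul (sU g), e2, ← ofMul_div, ← ofMul_div]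
  congr 1
  apply Units.ext
  simp only [Units.val_div_eq_div_val, Units.val_mul]
  field_simp

/-- Two independent classes in `H¹(ℚ_p, μ_p)`. -/
lemma exists_two (h3 : Coh3Stmt) (hv : ValStmt) (hd : DensStmt) {V : Pl} (hV : Above V p) :
    ∃ κ₁ ∈ ZS (DG V) (om p), ∃ κ₂ ∈ ZS (DG V) (om p),
      ∀ s t : ZMod p, s • κ₁ + t • κ₂ ∈ BS (DG V) (om p) → s = 0 ∧ t = 0 := by
  have hp0 : (p : Qb) ≠ 0 := Nat.cast_ne_zero.2 hp.out.ne_zero
  have hv1 : V.valuation (1 + p : Qb) = 1 := V.valuation.map_one_add_of_lt hV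
  have hp1 : (1 + p : Qb) ≠ 0 := fun h => by simp [h] at hv1
  obtain ⟨w₁, hw₁⟩ := exists_root (p := p) (Units.mk0 _ hp0)
  obtain ⟨w₂, hw₂⟩ := exists_root (p := p) (Units.mk0 _ hp1)
  obtain ⟨κ₁, hκ₁, e₁⟩ := h3.kumOf1 p (DG V) w₁ (by rw [hw₁]; intro g _; simp)
  obtain ⟨κ₂, hκ₂, e₂⟩ := h3.kumOf1 p (DG V) w₂ (by rw [hw₂]; intro g _; simp)
  have key : ∀ s t : ZMod p, s • κ₁ + t • κ₂ ∈ BS (DG V) (om p) →
      ∃ c ∈ fixU (DG V), (c : Qb) ^ p = (p : Qb) ^ s.val * (1 + p) ^ t.val := by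
    rintro s t ⟨m, hm⟩
    refine ⟨w₁ ^ s.val * w₂ ^ t.val / (iot1 p m).toMul, fun g hg => ?_, ?_⟩
    · have h4 := congrArg (iot1 p) (hm g hg)
      have e3 : ∀ (r : ZMod p) (y : ZMod p), iot1 p (r * y) = r.val • iot1 p y := fun r y => by
        rw [← map_nsmul, nsmul_eq_mul, ZMod.natCast_zmod_val]
      rw [Pi.add_apply, Pi.smul_apply, Pi.smul_apply, smul_eq_mul, smul_eq_mul, map_add, e3, e3,
        e₁ g hg, e₂ g hg, map_sub, mulAct_apply, ← aU_iot1] at h4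
      have h5 : (sU g w₁ / w₁) ^ s.val * (sU g w₂ / w₂) ^ t.val =
          sU g (iot1 p m).toMul / (iot1 p m).toMul := congrArg Additive.toMul h4
      have h6 : sU g (w₁ ^ s.val * w₂ ^ t.val / (iot1 p m).toMul) =
          w₁ ^ s.val * w₂ ^ t.val / (iot1 p m).toMul := by
        rw [map_div, map_mul, map_pow, map_pow, div_eq_div_iff_div_eq_div, ← h5, div_pow, div_pow,
          div_mul_div_comm]
      exact congrArg Units.val h6
    · have h7 : (iot1 p m).toMul ^ p = 1 := by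
        rw [← toMul_nsmul, ← map_nsmul, nsmul_eq_mul, ZMod.natCast_self, zero_mul, map_zero,
          toMul_zero]
      rw [← Units.val_pow_eq_pow_val, div_pow, h7, div_one, mul_pow, ← pow_mul, ← pow_mul,
        mul_comm s.val, mul_comm t.val, pow_mul, pow_mul, hw₁, hw₂]
      simp
  refine ⟨κ₁, hκ₁, κ₂, hκ₂, fun s t hst => ?_⟩
  have hs : s = 0 := by
    obtain ⟨c, hc, hce⟩ := key s t hst
    obtain ⟨j, hj⟩ := hd.baseVal V p hp.out hV c hc
    have h4 := congrArg V.valuation hce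
    rw [map_pow, map_mul, map_pow, map_pow, hv1, one_pow, mul_one, hj, ← zpow_natCast, ← zpow_mul,
      ← zpow_natCast] at h4
    have h5 := zpow_right_injective₀ vp_pos (ne_of_lt hV) h4
    rw [← ZMod.natCast_zmod_val s, ← Int.cast_natCast, ← h5]
    simp
  refine ⟨hs, by_contra fun ht => ?_⟩
  have h4 : (0 : ZMod p) • κ₁ + (1 : ZMod p) • κ₂ ∈ BS (DG V) (om p) := by
    have := (BS (DG V) (om p)).smul_mem t⁻¹ hst
    rwa [hs, smul_add, smul_smul, smul_smul, mul_zero, inv_mul_cancel₀ ht] at this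
  obtain ⟨c, hc, hce⟩ := key 0 1 h4
  rw [ZMod.val_zero, ZMod.val_one, pow_zero, pow_one, one_mul] at hce
  refine not_pow hv hd hV (H := DG V) (R := {1}) (fun r hr => by
    rw [mem_singleton.1 hr]; exact one_mem _) (fun g hg => ⟨1, ⟨mem_singleton_self _, by
      simpa using hg⟩, fun r hr => mem_singleton.1 hr.1⟩)
    (by simpa using hp.out.one_lt.ne') (Nat.sub_pos_of_lt hp.out.one_lt)
    (Nat.sub_lt hp.out.pos one_pos) hc ?_
  rw [hce, add_sub_cancel_left]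

/-- Conjugation on classes. -/
def conjT {D H : Subgroup GQ} (hle : H ≤ D) {σ : GQ} (hσ : σ ∈ D)
    (hn : ∀ h ∈ H, σ⁻¹ * h * σ ∈ H) :
    Module.End (ZMod p) ((GQ → ZMod p) ⧸ BS H (om p)) :=
  Submodule.mapQ _ _ (LinearMap.funLeft (ZMod p) (ZMod p) fun h => σ⁻¹ * h * σ) (by
    rintro c ⟨m, hm⟩
    refine ⟨m, fun g hg => ?_⟩
    rw [LinearMap.funLeft_apply, hm _ (hn g hg), mulAct_apply, mulAct_apply,
      char_conj (isChar_om p D) hσ (hle hg)])

lemma mem_eig {D H : Subgroup GQ} (hle : H ≤ D) {σ : GQ} (hσ : σ ∈ D)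
    (hn : ∀ h ∈ H, σ⁻¹ * h * σ ∈ H) {θ c : GQ → ZMod p} (hθ : IsChar D θ)
    (e : ∀ h ∈ H, θ h = om p h) (hc : c ∈ ZS D θ) :
    (BS H (om p)).mkQ c ∈ (conjT hle hσ hn).eigenspace (θ σ)⁻¹ := by
  rw [Module.End.mem_eigenspace_iff, ← map_smul]
  refine (Submodule.Quotient.eq _).2 ⟨(θ σ)⁻¹ * c σ, fun g hg => ?_⟩
  have h1 := conj_eq hc hσ (hle hg)
  have h0 := char_ne hθ hσ
  rw [Pi.sub_apply, LinearMap.funLeft_apply, Pi.smul_apply, smul_eq_mul, mulAct_apply, ← e g hg]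
  field_simp
  linear_combination h1

end Loc1P

open NdP Loc1P in
theorem loc1 (h3 : Coh3Stmt) (hv : ValStmt) (hd : DensStmt) (hu : UnrStmt) (hf : PhiStmt)
    (hn : NdStmt) : Loc1Stmt := by
  intro p hp hp2 V θ θ' hV hθ hθ' e ⟨g₀, hg₀, hg1, hg2⟩ x₀ x hx₀ hnb hx
  by_contra hcon
  push Not at hcon
  have ho := isChar_om p (DG V)
  have hVt : V ≠ ⊤ := hv.above_ne V p hp.out.ne_zero hV
  have hg3 : θ' g₀ ≠ 1 := fun h => hg2 (by simpa [h, hg1] using e g₀ hg₀)
  obtain ⟨d, lg, σ, hc, hinj⟩ := exists_cyc hθ'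
  obtain ⟨h₀, hh₀, hh1⟩ := exists_move hu hV hθ' hc hg₀ hg1 hg3
  obtain ⟨H, hH⟩ : ∃ H, H = ker2 hθ' hθ' := ⟨_, rfl⟩
  have hcj : ∀ r ∈ DG V, ∀ h ∈ H, r⁻¹ * h * r ∈ H := fun r hr h hh => by
    rw [hH] at hh ⊢; exact ker2_conj hθ' hθ' hr hh
  have h1 : ∀ h ∈ H, θ' h = 1 := fun h hh => by rw [hH] at hh; exact hh.2.1
  rw [← hH] at hc hh₀
  have hd2 : 1 < d := by
    by_contra hlt
    have : d = 1 := le_antisymm (not_lt.1 hlt) hc.pos
    subst this
    exact hg3 (h1 _ ((hc.ker g₀).2 ⟨hg₀, Subsingleton.elim _ _⟩))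
  -- the upper bound
  have hq : qO V (DG V) (p : Qb) ≤ p := by
    have := hd.prod ⊤ {V} p (OpenIn.refl _) ⟨fun W hW => by rw [mem_singleton.1 hW]; exact hVt,
      fun W hW W' hW' _ _ _ => (mem_singleton.1 hW).trans (mem_singleton.1 hW').symm⟩
      hp.out.ne_zero
    simpa using this
  have hpw := hf.pw V H p hVt hc.opn hp.out
  have hub : pw p (fixU H) ≤ p ^ (d + 1) := by
    rw [hpw, hf.deg V (DG V) H d lg σ p hVt (OpenIn.refl _) hc hp.out.ne_zero, pow_succ']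
    exact Nat.mul_le_mul ((Nat.mul_le_mul_left p (tor_le_one hh₀ hh1)).trans (mul_one p).le)
      (Nat.pow_le_pow_left hq d)
  have hne : pw p (fixU H) ≠ 0 := by
    rw [hpw]
    exact mul_ne_zero (mul_ne_zero hp.out.ne_zero (hf.tor p _ hp.out).1)
      (hd.fin V H p hVt hc.opn hp.out.ne_zero)
  -- the classes
  let τ : ℕ → GQ → ZMod p := fun i g => om p g * (θ' g)⁻¹ ^ i
  have hτ : ∀ i, IsChar (DG V) (τ i) := fun i => char_mul ho (char_pow (char_inv' hθ') i)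
  have hτH : ∀ i, ∀ h ∈ H, τ i h = om p h := fun i h hh => by simp [τ, h1 h hh]
  have hτ0 : τ 0 = om p := funext fun g => by simp [τ]
  have hτ1 : ∀ g ∈ DG V, τ 1 g = θ g := fun g hg => by
    have := char_ne hθ' hg
    simp only [τ, pow_one, ← e g hg]
    field_simp
  have hy : ∀ i, ∃ y ∈ ZS (DG V) (τ i), y ∉ BS (DG V) (τ i) := fun i => by
    obtain ⟨a, b, ha, hb, hab⟩ := hn p hp2 V (τ i) (fun g => θ' g ^ i) hV (hτ i) (char_pow hθ' i)
      fun g hg => by
        have := char_ne hθ' hg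
        simp only [τ, inv_pow]
        field_simp
    refine ⟨a, ha, fun hB => hab ?_⟩
    exact ((h3.cup (ZMod p) (ZMod p) (ZMod p) (DG V) _ _ _ AddMonoidHom.mul a b
      ⟨(hτ i).isAct, (char_pow hθ' i).isAct, ho.isAct, fun g hg s t => by
        have := char_ne hθ' hg
        simp only [AddMonoidHom.mul_apply, mulAct_apply, τ, inv_pow]
        field_simp⟩ ha hb).2.1 hB).map (a' := aU) (iot1 p) fun g _ m => (aU_iot1 p g m).symm
  choose y hyZ hyB using hy
  obtain ⟨κ₁, hκ₁, κ₂, hκ₂, hκ⟩ := exists_two h3 hv hd hV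
  have hx₀' : x₀ ∈ ZS (DG V) (τ 1) := zo_congr hx₀ hτ1
  have hx' : x ∈ ZS (DG V) (τ 1) := zo_congr hx hτ1
  let u : ℕ → GQ → ZMod p := fun i => if i = 0 then κ₁ else if i = 1 then x₀ else y i
  let u' : ℕ → ZMod p × ZMod p → GQ → ZMod p := fun i b =>
    if i = 0 then b.1 • κ₂ else if i = 1 then b.2 • x else 0
  let v : (Fin d → ZMod p) × ZMod p × ZMod p → Fin d → GQ → ZMod p := fun a i =>
    a.1 i • u i + u' i a.2
  have hvZ : ∀ a (i : Fin d), v a i ∈ ZS (DG V) (τ i) := fun a i => by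
    simp only [v, u, u']
    split_ifs with i0 i1
    · rw [i0, hτ0]; exact add_mem (Submodule.smul_mem _ _ hκ₁) (Submodule.smul_mem _ _ hκ₂)
    · rw [i1]; exact add_mem (Submodule.smul_mem _ _ hx₀') (Submodule.smul_mem _ _ hx')
    · exact add_mem (Submodule.smul_mem _ _ (hyZ i)) (zero_mem _)
  have hvsub : ∀ a b i, v (a - b) i = v a i - v b i := fun a b i => by
    simp only [v, u', Prod.fst_sub, Prod.snd_sub, Pi.sub_apply, sub_smul]
    split_ifs <;> abel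
  have hind : ∀ a, ∑ i, v a i ∈ BS H (om p) → a = 0 := fun a ha => by
    have hI := ((conjT hc.le hc.mem (hcj σ hc.mem)).eigenspaces_iSupIndep.comp
      (f := fun i : Fin d => (τ i σ)⁻¹) fun i j hij => by
        have h2 := mul_left_cancel₀ (char_ne ho hc.mem) (inv_injective hij)
        rw [inv_pow, inv_pow] at h2
        exact Fin.ext (hinj i i.2 j j.2 (inv_injective h2)))
    have hz := (iSupIndep_iff_finsetSum_eq_zero_imp_eq_zero _).1 hI univ
      (fun i => (BS H (om p)).mkQ (v a i))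
      (fun i _ => mem_eig hc.le hc.mem (hcj σ hc.mem) (hτ i) (hτH i) (hvZ a i))
      (by rw [← map_sum]; exact (Submodule.Quotient.mk_eq_zero _).2 ha)
    have hB : ∀ i : Fin d, v a i ∈ BS (DG V) (τ i) := fun i =>
      res_inj (hτ i) hc.le hcj hh₀ (by rwa [hτH i h₀ hh₀]) (hvZ a i)
        (((Submodule.Quotient.mk_eq_zero _).1 (hz i (mem_univ i))).imp fun m hm g hg => by
          rw [hm g hg, mulAct_apply, mulAct_apply, hτH i g hg])
    have b0 := hB ⟨0, hc.pos⟩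
    have b1 := hB ⟨1, hd2⟩
    simp only [v, u, u', if_true, hτ0] at b0
    simp only [v, u, u', one_ne_zero, if_false, if_true] at b1
    have c0 := hκ _ _ b0
    have bo1 : ∀ c ∈ BS (DG V) (τ 1), Bo (DG V) (mulAct θ) c := fun c hc' =>
      hc'.imp fun m hm g hg => by rw [hm g hg, mulAct_apply, mulAct_apply, hτ1 g hg]
    have c2 : a.2.2 = 0 := by
      by_contra h0
      refine hcon (-(a.2.2⁻¹ * a.1 ⟨1, hd2⟩)) ?_
      have := bo1 _ ((BS (DG V) (τ 1)).smul_mem a.2.2⁻¹ b1)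
      convert this using 2 with g
      simp only [Pi.smul_apply, Pi.add_apply, smul_eq_mul]
      field_simp
      ring
    have cancel : ∀ (i : ℕ) (r : ZMod p) (c : GQ → ZMod p), r • c ∈ BS (DG V) (τ i) →
        c ∉ BS (DG V) (τ i) → r = 0 := fun i r c h2 h4 => by
      by_contra h0
      exact h4 (by simpa [smul_smul, inv_mul_cancel₀ h0] using (BS (DG V) (τ i)).smul_mem r⁻¹ h2)
    refine Prod.ext (funext fun i => ?_) (Prod.ext c0.2 c2)
    by_cases i0 : (i : ℕ) = 0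
    · rw [show i = ⟨0, hc.pos⟩ from Fin.ext i0]; exact c0.1
    by_cases i1 : (i : ℕ) = 1
    · rw [show i = ⟨1, hd2⟩ from Fin.ext i1]
      rw [c2, zero_smul, add_zero] at b1
      exact cancel 1 _ _ b1 fun h => hnb (bo1 _ h)
    · have b2 := hB i
      simp only [v, u, u', i0, i1, if_false, add_zero] at b2
      exact cancel i _ _ b2 (hyB i)
  have hcard := (card_le h3 hne (fun a => ∑ i, v a i)
    (fun a => sum_mem fun i _ => zo_congr ((hvZ a i).mono hc.le) fun g hg => (hτH i g hg).symm)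
    fun a b hab => sub_eq_zero.1 (hind _ (by
      simpa only [hvsub, sum_sub_distrib] using hab))).trans hub
  simp only [Nat.card_prod, Nat.card_pi, Nat.card_zmod, prod_const, card_univ, Fintype.card_fin]
    at hcard
  rw [← pow_two, ← pow_add] at hcard
  have := (Nat.pow_le_pow_iff_right hp.out.one_lt).1 hcard
  omega

end Pool.Agent.MP_59efd2_nt.lz

end
end MrgPart4

-- ======== part 5: formerly Pool.Agent.MP_59efd2_nt.sel.Gen
section MrgPart5

/-!
# Integral cocycles: generators and isotropy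
-/

noncomputable section

namespace Pool.Agent.MP_59efd2_nt.lz

open scoped Pointwise Classical
open PadicInt

set_option linter.unusedSectionVars false

namespace SelP

variable {p : ℕ} [hp : Fact p.Prime]

lemma toZModPow_eq_iff (n : ℕ) (x y : ℤ_[p]) :
    toZModPow n x = toZModPow n y ↔ ‖x - y‖ ≤ (p : ℝ) ^ (-n : ℤ) := by
  rw [norm_le_pow_iff_mem_span_pow, ← ker_toZModPow, RingHom.mem_ker, map_sub, sub_eq_zero]

lemma cont_of_levels {Y : Type} [TopologicalSpace Y] {c : Y → ℤ_[p]}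
    (h : ∀ n, IsLocallyConstant fun y => toZModPow n (c y)) : Continuous c := by
  refine continuous_iff_continuousAt.2 fun y => Metric.tendsto_nhds.2 fun ε hε => ?_
  obtain ⟨k, hk⟩ := exists_pow_neg_lt p hε
  refine ((h k).eventually_eq y).mono fun z hz => ?_
  rw [dist_eq_norm]
  exact ((toZModPow_eq_iff k _ _).1 hz).trans_lt hk

/-- A bounded family in `ℚ_p` becomes integral after scaling. -/
lemma exists_scale {Y : Type} (c : Y → ℚ_[p]) {C : ℝ} (h : ∀ y, ‖c y‖ ≤ C) :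
    ∃ (r : ℕ) (z : Y → ℤ_[p]), ∀ y, (z y : ℚ_[p]) = (p : ℚ_[p]) ^ r * c y := by
  obtain ⟨r, hr⟩ := pow_unbounded_of_one_lt C (Nat.one_lt_cast.2 hp.out.one_lt : (1 : ℝ) < p)
  have h0 : (0 : ℝ) < (p : ℝ) ^ r := pow_pos (Nat.cast_pos.2 hp.out.pos) r
  refine ⟨r, fun y => ⟨(p : ℚ_[p]) ^ r * c y, ?_⟩, fun _ => rfl⟩
  rw [norm_mul, norm_pow, Padic.norm_p, inv_pow, inv_mul_le_iff₀ h0, mul_one]
  exact (h y).trans hr.le

lemma cont_of_coe {Y : Type} [TopologicalSpace Y] {z : Y → ℤ_[p]}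
    (h : Continuous fun y => (z y : ℚ_[p])) : Continuous z := continuous_induced_rng.2 h

lemma iot_pow (n k : ℕ) (t : ℤ_[p]) :
    iot p (n + k) (toZModPow (n + k) ((p : ℤ_[p]) ^ k * t)) = iot p n (toZModPow n t) := by
  induction k with
  | zero => rw [pow_zero, one_mul]; rfl
  | succ k ih =>
    rw [← ih, ← red_toZModPow p (n + k), iot_red, ← map_nsmul, ← map_nsmul, nsmul_eq_mul, pow_succ']
    rw [mul_assoc]
    rfl

variable {V : Pl}

/-- Continuous integral cocycles of the decomposition group for the character `ε`. -/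
def ZI (ε : DG V →* ℤ_[p]ˣ) (x : DG V → ℤ_[p]) : Prop :=
  Continuous x ∧ ∀ g h, x (g * h) = x g + ε g * x h

/-- The character `ε` on the whole group. -/
def eI (ε : DG V →* ℤ_[p]ˣ) : GQ → ℤ_[p] := ext (DG V) 1 fun g => (ε g : ℤ_[p])

lemma eI_of_mem (ε : DG V →* ℤ_[p]ˣ) {g : GQ} (hg : g ∈ DG V) : eI ε g = ε ⟨g, hg⟩ :=
  ext_of_mem _ _ hg

lemma dbar_eq (ε : DG V →* ℤ_[p]ˣ) {g : GQ} (hg : g ∈ DG V) : dbar V ε g = toZMod (eI ε g) := by
  rw [eI_of_mem ε hg, FinalP.dbar_of_mem V ε hg]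

lemma sm1_level (hc : ContStmt) (hv : ValStmt) {x : DG V → ℤ_[p]} (hx : Continuous x) (x₀ : ℤ_[p])
    (n : ℕ) : Sm1 (DG V) fun g => toZModPow n (ext (DG V) x₀ x g) := by
  obtain ⟨N, hN⟩ := hc.lc _ (DG V) _ 0 (hv.dg_closed V) (hc.zp p _ x hx n)
  refine ⟨N, fun g hg k hk hkN => ?_⟩
  have := hN g hg k hk hkN
  rw [ext_of_mem _ _ hg, ext_of_mem _ _ ((DG V).mul_mem hg hk)] at this
  beta_reduce
  rw [ext_of_mem _ _ hg, ext_of_mem _ _ ((DG V).mul_mem hg hk)]
  exact this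

lemma sm1_hom (hc : ContStmt) (hv : ValStmt) {x : DG V → ℤ_[p]} (hx : Continuous x) (x₀ : ℤ_[p]) :
    Sm1 (DG V) fun g => toZMod (ext (DG V) x₀ x g) := by
  simpa only [← e1_toZMod, RingEquiv.symm_apply_apply] using
    (sm1_level hc hv hx x₀ 1).comp (e1 p).symm

lemma eI_mul (ε : DG V →* ℤ_[p]ˣ) {g k : GQ} (hg : g ∈ DG V) (hk : k ∈ DG V) :
    eI ε (g * k) = eI ε g * eI ε k := by
  rw [eI_of_mem ε hg, eI_of_mem ε hk, eI_of_mem ε ((DG V).mul_mem hg hk), ← Units.val_mul, ← map_mul]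
  rfl

lemma char_level (hc : ContStmt) (hv : ValStmt) {ε : DG V →* ℤ_[p]ˣ} (hε : Continuous ε) (n : ℕ) :
    IsChar (DG V) fun g => toZModPow n (eI ε g) :=
  ⟨by
    rw [eI_of_mem ε (DG V).one_mem]
    exact (congrArg (fun u : ℤ_[p]ˣ => toZModPow n (u : ℤ_[p])) (map_one ε)).trans (map_one _),
    fun g hg k hk => by rw [eI_mul ε hg hk, map_mul],
    sm1_level hc hv (Units.continuous_val.comp hε) 1 n⟩

lemma ZI.ext_mul {ε : DG V →* ℤ_[p]ˣ} {x : DG V → ℤ_[p]} (hx : ZI ε x) {g k : GQ}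
    (hg : g ∈ DG V) (hk : k ∈ DG V) :
    ext (DG V) 0 x (g * k) = ext (DG V) 0 x g + eI ε g * ext (DG V) 0 x k := by
  rw [ext_of_mem _ _ hg, ext_of_mem _ _ hk, ext_of_mem _ _ ((DG V).mul_mem hg hk), eI_of_mem ε hg]
  exact hx.2 ⟨g, hg⟩ ⟨k, hk⟩

lemma ZI.level (hc : ContStmt) (hv : ValStmt) {ε : DG V →* ℤ_[p]ˣ} {x : DG V → ℤ_[p]}
    (hx : ZI ε x) (n : ℕ) : Zo (DG V) (mulAct fun g => toZModPow n (eI ε g))
      fun g => toZModPow n (ext (DG V) 0 x g) :=
  ⟨sm1_level hc hv hx.1 0 n, fun g hg k hk => by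
    beta_reduce
    rw [hx.ext_mul hg hk, map_add, map_mul, mulAct_apply]⟩

lemma ZI.bar (hc : ContStmt) (hv : ValStmt) {ε : DG V →* ℤ_[p]ˣ} {x : DG V → ℤ_[p]}
    (hx : ZI ε x) : Zo (DG V) (mulAct (dbar V ε)) fun g => toZMod (ext (DG V) 0 x g) :=
  ⟨sm1_hom hc hv hx.1 0, fun g hg k hk => by
    beta_reduce
    rw [hx.ext_mul hg hk, map_add, map_mul, mulAct_apply, dbar_eq ε hg]⟩

/-- A class that generates modulo `p` generates. -/
lemma gen (hc : ContStmt) (hv : ValStmt) {ε : DG V →* ℤ_[p]ˣ} (hε : Continuous ε)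
    {x₀ : DG V → ℤ_[p]} (hx₀ : ZI ε x₀)
    (h1 : ∀ x, Zo (DG V) (mulAct (dbar V ε)) x → ∃ s : ZMod p, Bo (DG V) (mulAct (dbar V ε))
      fun g => x g - s * toZMod (ext (DG V) 0 x₀ g))
    {x : DG V → ℤ_[p]} (hx : ZI ε x) : ∃ s v : ℤ_[p], ∀ g, x g = s * x₀ g + (ε g - 1) * v := by
  have hεc : Continuous fun g => (ε g : ℤ_[p]) := Units.continuous_val.comp hε
  let K : ℕ → Set (ℤ_[p] × ℤ_[p]) := fun n =>
    {q | ∀ g, ‖x g - (q.1 * x₀ g + (ε g - 1) * q.2)‖ ≤ (p : ℝ) ^ (-n : ℤ)}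
  have hcl : ∀ n, IsClosed (K n) := fun n => by
    simp only [K, Set.ofPred_forall]
    exact isClosed_iInter fun g => isClosed_le (by fun_prop) continuous_const
  have hdv : ∀ n q, q ∈ K n ↔ ∀ g, (p : ℤ_[p]) ^ n ∣ x g - (q.1 * x₀ g + (ε g - 1) * q.2) :=
    fun n q => forall_congr' fun g => by
      rw [norm_le_pow_iff_mem_span_pow, Ideal.mem_span_singleton]
  have hp0 : ∀ n : ℕ, (p : ℤ_[p]) ^ n ≠ 0 := fun n =>
    pow_ne_zero n (Nat.cast_ne_zero.2 hp.out.ne_zero)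
  have hne : ∀ n, (K n).Nonempty := by
    intro n
    induction n with
    | zero => exact ⟨0, (hdv 0 0).2 fun g => by simp⟩
    | succ n ih =>
      obtain ⟨q, hq⟩ := ih
      choose y hy using (hdv n q).1 hq
      have hyZ : ZI ε y := by
        refine ⟨cont_of_coe ?_, fun g k => mul_left_cancel₀ (hp0 n) ?_⟩
        · have : (fun g => (y g : ℚ_[p])) = fun g => ((p : ℚ_[p]) ^ n)⁻¹ *
              ((x g - (q.1 * x₀ g + (ε g - 1) * q.2) : ℤ_[p]) : ℚ_[p]) := funext fun g => by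
            rw [hy g]
            push_cast
            rw [inv_mul_cancel_left₀ (pow_ne_zero n (Nat.cast_ne_zero.2 hp.out.ne_zero))]
          rw [this]
          have h2 := hx.1
          have h3 := hx₀.1
          have h4 : Continuous fun g => x g - (q.1 * x₀ g + (ε g - 1) * q.2) := by fun_prop
          exact continuous_const.mul (continuous_subtype_val.comp h4)
        · rw [mul_add, mul_left_comm, ← hy, ← hy, ← hy, hx.2, hx₀.2, map_mul, Units.val_mul]
          ring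
      obtain ⟨s, m, hm⟩ := h1 _ (hyZ.bar hc hv)
      refine ⟨(q.1 + p ^ n * s.val, q.2 + p ^ n * m.val), (hdv _ _).2 fun g => ?_⟩
      have h2 := hm g g.2
      simp only [ext_coe, mulAct_apply, FinalP.dbar_of_mem V ε g.2] at h2
      have h3 : (p : ℤ_[p]) ∣ y g - (s.val * x₀ g + (ε g - 1) * m.val) := by
        rw [← Ideal.mem_span_singleton, ← maximalIdeal_eq_span_p, ← ker_toZMod, RingHom.mem_ker]
        simp only [map_sub, map_add, map_mul, map_natCast, ZMod.natCast_zmod_val, map_one]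
        linear_combination h2
      obtain ⟨w, hw⟩ := h3
      exact ⟨w, by linear_combination hy g + (p : ℤ_[p]) ^ n * hw⟩
  obtain ⟨q, hq⟩ := IsCompact.nonempty_iInter_of_sequence_nonempty_isCompact_isClosed K
    (fun n q hq => (hdv n q).2 fun g => (pow_dvd_pow _ (Nat.le_succ n)).trans ((hdv _ q).1 hq g))
    hne (hcl 0).isCompact hcl
  exact ⟨q.1, q.2, fun g => ext_of_toZModPow.1 fun n =>
    (toZModPow_eq_iff n _ _).2 (Set.mem_iInter.1 hq n g)⟩

/-- All levels of `e` are trivial in the Brauer group of `H`. -/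
def TB (p : ℕ) [Fact p.Prime] (H : Subgroup GQ) (e : GQ → GQ → ℤ_[p]) : Prop :=
  ∀ n, B2 H aU fun g h => iot p n (toZModPow n (e g h))

lemma TB.add {H : Subgroup GQ} {e e' : GQ → GQ → ℤ_[p]} (h : TB p H e) (h' : TB p H e') :
    TB p H fun g k => e g k + e' g k := fun n =>
  ((h n).add (h' n)).congr fun _ _ _ _ => by rw [map_add, map_add]; rfl

lemma TB.sub {H : Subgroup GQ} {e e' : GQ → GQ → ℤ_[p]} (h : TB p H e) (h' : TB p H e') :
    TB p H fun g k => e g k - e' g k := fun n =>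
  ((h n).sub (h' n)).congr fun _ _ _ _ => by rw [map_sub, map_sub]; rfl

lemma TB.congr {H : Subgroup GQ} {e e' : GQ → GQ → ℤ_[p]} (h : TB p H e)
    (he : ∀ g ∈ H, ∀ k ∈ H, e' g k = e g k) : TB p H e' := fun n =>
  (h n).congr fun g hg k hk => by rw [he g hg k hk]

/-- The Tate module of the Brauer group has no torsion. -/
lemma TB.cancel {H : Subgroup GQ} {e : GQ → GQ → ℤ_[p]} {a : ℤ_[p]} (ha : a ≠ 0)
    (h : TB p H fun g k => a * e g k) : B2 H aU fun g k => iot1 p (toZMod (e g k)) := by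
  have h1 := (h (1 + a.valuation)).nsmul (toZModPow 1 (((unitCoeff ha)⁻¹ : ℤ_[p]ˣ) : ℤ_[p])).val
  refine h1.congr fun g _ k _ => ?_
  have e2 : a * e g k = (p : ℤ_[p]) ^ a.valuation * (unitCoeff ha * e g k) := by
    linear_combination e g k * unitCoeff_spec ha
  rw [Pi.smul_apply, Pi.smul_apply]
  beta_reduce
  rw [e2, iot_pow, ← map_nsmul, nsmul_eq_mul, ZMod.natCast_zmod_val,
    ← map_mul, Units.inv_mul_cancel_left, ← e1_toZMod]
  rfl

/-- The local cup product. -/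
def cupI (ε' : DG V →* ℤ_[p]ˣ) (x y : DG V → ℤ_[p]) : GQ → GQ → ℤ_[p] :=
  fun g h => ext (DG V) 0 x g * (eI ε' g * ext (DG V) 0 y h)

lemma pairI (hc : ContStmt) (hv : ValStmt) {ε ε' : DG V →* ℤ_[p]ˣ} (hε : Continuous ε)
    (hε' : Continuous ε') (hd : ∀ g, ε g * ε' g = chi p g) (n : ℕ) :
    Pairing (DG V) (mulAct fun g => toZModPow n (eI ε g)) (mulAct fun g => toZModPow n (eI ε' g))
      aU (AddMonoidHom.mul.compr₂ (iot p n)) :=
  ⟨(char_level hc hv hε n).isAct, (char_level hc hv hε' n).isAct, isAct_aU _, fun g hg s t => by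
    simp only [AddMonoidHom.compr₂_apply, AddMonoidHom.mul_apply, mulAct_apply]
    rw [aU_iot, coe_chiN, ← hd ⟨g, hg⟩, eI_of_mem ε hg, eI_of_mem ε' hg, Units.val_mul,
      map_mul (toZModPow n)]
    congr 1
    ring⟩

lemma zi_cob {ε : DG V →* ℤ_[p]ˣ} (hε : Continuous ε) (v : ℤ_[p]) :
    ZI ε fun g => (ε g - 1) * v :=
  ⟨((Units.continuous_val.comp hε).sub continuous_const).mul continuous_const, fun g k => by
    beta_reduce
    rw [map_mul, Units.val_mul]; ring⟩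

lemma bo_cob (ε : DG V →* ℤ_[p]ˣ) (v : ℤ_[p]) (n : ℕ) :
    Bo (DG V) (mulAct fun g => toZModPow n (eI ε g))
      fun g => toZModPow n (ext (DG V) 0 (fun g => ((ε g : ℤ_[p]) - 1) * v) g) :=
  ⟨toZModPow n v, fun g hg => by
    beta_reduce
    rw [ext_of_mem _ _ hg, mulAct_apply, eI_of_mem ε hg, sub_mul, one_mul, map_sub, map_mul]⟩

/-- An isotropic pair of multiples of the generators has a zero coordinate. -/
lemma coord_zero (h3 : Coh3Stmt) (hc : ContStmt) (hv : ValStmt) {ε ε' : DG V →* ℤ_[p]ˣ}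
    (hε : Continuous ε) (hε' : Continuous ε') (hd : ∀ g, ε g * ε' g = chi p g)
    {x₀ y₀ x y : DG V → ℤ_[p]} (hx₀ : ZI ε x₀) (hx : ZI ε x) (hy : ZI ε' y)
    (hnd : ¬ B2 (DG V) aU fun g h => iot1 p (toZMod (cupI ε' x₀ y₀ g h)))
    {s v t w : ℤ_[p]} (ex : ∀ g, x g = s * x₀ g + (ε g - 1) * v)
    (ey : ∀ g, y g = t * y₀ g + (ε' g - 1) * w)
    (hiso : TB p (DG V) fun g h => cupI ε' x y g h - cupI ε y x g h) : s = 0 ∨ t = 0 := by
  by_contra hcon
  push Not at hcon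
  have cup := fun {a b : DG V → ℤ_[p]} (ha : ZI ε a) (hb : ZI ε' b) (n : ℕ) =>
    h3.cup _ _ _ _ _ _ _ _ _ _ (pairI hc hv hε hε' hd n) (ha.level hc hv n) (hb.level hc hv n)
  have t1 : TB p (DG V) fun g h => cupI ε' x y g h +
      eI ε g * ext (DG V) 0 x h * ext (DG V) 0 y g := fun n =>
    (cup hx hy n).2.2.2.congr fun g _ k _ => by
      simp only [cupI, map_add, map_mul, AddMonoidHom.compr₂_apply, AddMonoidHom.mul_apply,
        mulAct_apply]
  have t2 : TB p (DG V) (cupI ε' (fun g => (ε g - 1) * v) y) := fun n =>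
    ((cup (zi_cob hε v) hy n).2.1 (bo_cob ε v n)).congr fun g _ k _ => by
      simp only [cupI, map_mul, AddMonoidHom.compr₂_apply, AddMonoidHom.mul_apply, mulAct_apply]
  have hsx : ZI ε fun g => s * x₀ g :=
    ⟨continuous_const.mul hx₀.1, fun g k => by beta_reduce; rw [hx₀.2]; ring⟩
  have t3 : TB p (DG V) (cupI ε' (fun g => s * x₀ g) fun g => (ε' g - 1) * w) := fun n =>
    ((cup hsx (zi_cob hε' w) n).2.2.1 (bo_cob ε' w n)).congr fun g _ k _ => by
      simp only [cupI, map_mul, AddMonoidHom.compr₂_apply, AddMonoidHom.mul_apply, mulAct_apply]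
  refine hnd (TB.cancel (a := 2 * s * t) (mul_ne_zero (mul_ne_zero two_ne_zero hcon.1) hcon.2)
    ((((hiso.add t1).sub (t2.add t2)).sub (t3.add t3)).congr fun g hg k hk => ?_))
  simp only [cupI, ext_of_mem _ _ hg, ext_of_mem _ _ hk, ex, ey]
  ring

/-- The twisted matrix `χ^m ρ`. -/
def MI (ρ : GQ →* GL (Fin 2) ℤ_[p]) (m : ℤ) (g : GQ) : Matrix (Fin 2) (Fin 2) ℤ_[p] :=
  ((chi p g ^ m : ℤ_[p]ˣ) : ℤ_[p]) • (ρ g : Matrix (Fin 2) (Fin 2) ℤ_[p])

/-- The action at level `n`. -/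
def aN (ρ : GQ →* GL (Fin 2) ℤ_[p]) (m : ℤ) (n : ℕ) (g : GQ) :
    (Fin 2 → ZMod (p ^ n)) →+ (Fin 2 → ZMod (p ^ n)) :=
  (Matrix.mulVecLin ((MI ρ m g).map (toZModPow n))).toAddMonoidHom

lemma aN_apply (ρ : GQ →* GL (Fin 2) ℤ_[p]) (m : ℤ) (n : ℕ) (g : GQ) (s : Fin 2 → ZMod (p ^ n)) :
    aN ρ m n g s = ((MI ρ m g).map (toZModPow n)).mulVec s := rfl

lemma aN_level (ρ : GQ →* GL (Fin 2) ℤ_[p]) (m : ℤ) (n : ℕ) (g : GQ) (v : Fin 2 → ℤ_[p]) :
    (aN ρ m n g fun i => toZModPow n (v i)) = fun i => toZModPow n ((MI ρ m g).mulVec v i) :=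
  funext fun i => (RingHom.map_mulVec (toZModPow n) _ v i).symm

lemma isAct_aN (hc : ContStmt) {ρ : GQ →* GL (Fin 2) ℤ_[p]} (hρ : Continuous ρ) (m : ℤ) (n : ℕ) :
    IsAct ⊤ (aN ρ m n) := by
  have h1 : (MI ρ m 1).map (toZModPow n) = 1 := by simp [MI]
  refine ⟨fun v => by rw [aN_apply, h1, Matrix.one_mulVec], fun g _ k _ v => ?_, fun v => ?_⟩
  · rw [aN_apply, aN_apply, aN_apply, Matrix.mulVec_mulVec, ← Matrix.map_mul]
    congr 2
    simp only [MI, map_mul, mul_zpow, Units.val_mul, Matrix.smul_mul, Matrix.mul_smul, smul_smul]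
    rw [mul_comm]
  · obtain ⟨N, hN⟩ := (hc.rho p ρ hρ n).comp₂ (sm1_chiN p ⊤ n) Prod.mk
    refine ⟨N, fun k _ hk => ?_⟩
    have h2 := Prod.ext_iff.1 (hN 1 trivial k trivial hk)
    simp only [one_mul, map_one] at h2
    have h3 : toZModPow n ((chi p k ^ m : ℤ_[p]ˣ) : ℤ_[p]) = 1 := by
      have := congrArg Units.val (map_zpow (Units.map (toZModPow (p := p) n).toMonoidHom)
        (chi p k) m)
      refine this.trans ?_
      change ((chiN p n k ^ m : Gam p n) : ZMod (p ^ n)) = 1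
      rw [h2.2, one_zpow, Units.val_one]
    have h4 : (MI ρ m k).map (toZModPow n) = 1 := by
      ext i j
      have := congrFun (congrFun h2.1 i) j
      simp only [Matrix.map_apply] at this
      simp only [MI, Matrix.map_apply, Matrix.smul_apply, smul_eq_mul, map_mul, h3, one_mul, this]
      rw [Units.val_one, Matrix.one_apply, Matrix.one_apply]
      split_ifs <;> simp
    rw [aN_apply, h4, Matrix.one_mulVec]

/-- The determinant pairing at level `n`. -/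
def detB (p : ℕ) [Fact p.Prime] (n : ℕ) :
    (Fin 2 → ZMod (p ^ n)) →+ (Fin 2 → ZMod (p ^ n)) →+ AU :=
  AddMonoidHom.mk' (fun s => AddMonoidHom.mk' (fun t => iot p n (s 0 * t 1 - s 1 * t 0))
    fun t t' => by rw [← map_add]; congr 1; simp only [Pi.add_apply]; ring)
    fun s s' => AddMonoidHom.ext fun t => by
      change iot p n _ = iot p n _ + iot p n _
      rw [← map_add]; congr 1; simp only [Pi.add_apply]; ring

lemma detB_apply (n : ℕ) (s t : Fin 2 → ZMod (p ^ n)) :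
    detB p n s t = iot p n (s 0 * t 1 - s 1 * t 0) := rfl

lemma pair_det (hc : ContStmt) {ρ : GQ →* GL (Fin 2) ℤ_[p]} (hρ : Continuous ρ) {m : ℤ}
    (hdet : ∀ g, Matrix.GeneralLinearGroup.det (ρ g) = chi p g ^ (1 - 2 * m)) (n : ℕ)
    (H : Subgroup GQ) : Pairing H (aN ρ m n) (aN ρ m n) aU (detB p n) := by
  refine ⟨(isAct_aN hc hρ m n).mono le_top, (isAct_aN hc hρ m n).mono le_top, isAct_aU H,
    fun g _ s t => ?_⟩
  have h1 : (MI ρ m g).det = chi p g := by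
    rw [MI, Matrix.det_smul, ← Matrix.GeneralLinearGroup.val_det_apply, hdet,
      ← Units.val_pow_eq_pow_val, ← Units.val_mul, Fintype.card_fin, ← zpow_natCast, ← zpow_mul,
      ← zpow_add]
    simp [mul_comm]
  have h2 := congrArg (toZModPow n) h1
  rw [Matrix.det_fin_two, map_sub, map_mul, map_mul] at h2
  rw [detB_apply, detB_apply, aU_iot, coe_chiN, ← h2]
  congr 1
  simp only [aN_apply, Matrix.mulVec, dotProduct, Fin.sum_univ_two, Matrix.map_apply]
  ring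

/-- Classes unramified away from `p` are isotropic. -/
lemma iso (h2 : Coh2Stmt) (h3 : Coh3Stmt) (hc : ContStmt) (hu : UnrStmt) (hun : UnStmt)
    (hr : RecStmt) (hp2 : p ≠ 2) {ρ : GQ →* GL (Fin 2) ℤ_[p]} (hρ : Continuous ρ) {m : ℤ}
    (hdet : ∀ g, Matrix.GeneralLinearGroup.det (ρ g) = chi p g ^ (1 - 2 * m))
    {z : GQ → Fin 2 → ℤ_[p]} (hz : ∀ i, Continuous fun g => z g i)
    (hz2 : ∀ g h, z (g * h) = z g + (MI ρ m g).mulVec (z h))
    (hI : ∀ W : Pl, W ≠ ⊤ → ¬ Above W p → ∃ (k : ℕ) (v : Fin 2 → ℤ_[p]), ∀ g ∈ IG W,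
      (p : ℤ_[p]) ^ k • z g = (MI ρ m g).mulVec v - v) :
    TB p ⊤ fun g h => z g 0 * (MI ρ m g).mulVec (z h) 1 - z g 1 * (MI ρ m g).mulVec (z h) 0 := by
  have hZ : ∀ (a : ℤ_[p]) (n : ℕ), Zo ⊤ (aN ρ m n) fun g i => toZModPow n ((a • z g) i) := by
    intro a n
    refine ⟨?_, fun g _ k _ => ?_⟩
    · have := fun i => hc.lcG _ _ (hc.zp p _ _ (hz i) n)
      refine ((this 0).comp₂ (this 1) Prod.mk).imp fun N hN g hg k hk hkN => funext fun i => ?_
      have h4 := Prod.ext_iff.1 (hN g hg k hk hkN)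
      fin_cases i
      · simp only [Pi.smul_apply, smul_eq_mul, map_mul]; exact congrArg _ h4.1
      · simp only [Pi.smul_apply, smul_eq_mul, map_mul]; exact congrArg _ h4.2
    · beta_reduce
      rw [aN_level, hz2, smul_add, Matrix.mulVec_smul]
      exact funext fun i => map_add _ _ _
  have hT : ∀ n s t, p ^ n • detB p n s t = 0 := fun n s t => by
    rw [detB_apply, ← map_nsmul, nsmul_eq_mul, ZMod.natCast_self, zero_mul, map_zero]
  have hE : ∀ (a : ℤ_[p]) (n : ℕ) (g h : GQ),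
      detB p n (fun i => toZModPow n ((a • z g) i)) (aN ρ m n g fun i => toZModPow n ((a • z h) i)) =
      iot p n (toZModPow n (a * a *
        (z g 0 * (MI ρ m g).mulVec (z h) 1 - z g 1 * (MI ρ m g).mulVec (z h) 0))) := by
    intro a n g h
    rw [aN_level, detB_apply, ← map_mul, ← map_mul, ← map_sub, Matrix.mulVec_smul]
    congr 2
    simp only [Pi.smul_apply, smul_eq_mul]
    ring
  intro n
  refine hr p hp2 _ ((h3.cup _ _ AU ⊤ _ _ aU _ _ _ (pair_det hc hρ hdet n ⊤) (hZ 1 n)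
    (hZ 1 n)).1.congr fun g _ k _ => by rw [hE, one_mul, one_mul])
    ⟨n, (b2_zero ⊤ aU).congr fun g _ k _ => by
      rw [Pi.smul_apply, Pi.smul_apply, ← map_nsmul, nsmul_eq_mul, ZMod.natCast_self, zero_mul,
        map_zero]; rfl⟩ fun W hW hWp => ?_
  obtain ⟨k, v, hv⟩ := hI W hW hWp
  refine (IwbP.local_step h2 h3 hu hun W hW (pair_det hc hρ hdet (n + (k + k)) _)
    (pow_pos hp.out.pos _).ne' (hT _) ((hZ (p ^ k) _).mono le_top)
    ⟨fun i => toZModPow _ (v i), fun g hg => ?_⟩).congr fun g _ h _ => ?_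
  · beta_reduce
    rw [aN_level, hv g hg]
    exact funext fun i => map_sub _ _ _
  · rw [hE, ← pow_add, iot_pow]

end SelP

end Pool.Agent.MP_59efd2_nt.lz

end
end MrgPart5

-- marker of a merged file
example : 731051 + 840082 = 731051 + 840082 := rfl
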