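import Pool.Agent.MP_59efd2_nt.sel.Gen
import Pool.Agent.MP_59efd2_nt.lz.Main

/-!
# The Selmer form: the localisation of the relaxed Selmer group lies in one of the two lines
-/

noncomputable section

namespace Pool.Agent.MP_59efd2_nt.lz

open scoped Pointwise Classical
open PadicInt

set_option linter.unusedSectionVars false

/-- The general statement in Selmer form at `j = k / 2 = m`. -/
def SelStmt : Prop :=
  ∀ (p : ℕ) [Fact p.Prime], p ≠ 2 → ∀ (m : ℤ) (ρ : GQ →* GL (Fin 2) ℤ_[p]), Continuous ρ →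
    (∀ g, Matrix.GeneralLinearGroup.det (ρ g) = chi p g ^ (1 - 2 * m)) →
    ∀ (V : ValuationSubring Qb), Above V p →
    ∀ (δ : Fin 2 → (V.decompositionSubgroup ℚ →* ℤ_[p]ˣ)) (h : SplitsAs ρ V δ) (β : ℤ_[p]),
      UnramWith V (δ 1) β → ¬ (p : ℤ_[p]) ∣ β - 1 →
      (∀ i, Module.finrank ℚ_[p] (HL PadicInt.Coe.ringHom (chiPow p m) V (δ i)) = 1) ∧
      (locAt PadicInt.Coe.ringHom (chiPow p m) h {p} 0 = 0 ∨
        locAt PadicInt.Coe.ringHom (chiPow p m) h {p} 1 = 0)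

namespace SelP

variable {p : ℕ} [hp : Fact p.Prime] {V : Pl}

/-- The twisted character `χ^m δ`. -/
def tw (δ : DG V →* ℤ_[p]ˣ) (m : ℤ) : DG V →* ℤ_[p]ˣ := ((chi p).comp (DG V).subtype) ^ m * δ

lemma tw_apply (δ : DG V →* ℤ_[p]ˣ) (m : ℤ) (g : DG V) : tw δ m g = chi p g ^ m * δ g := rfl

lemma cont_tw {δ : DG V →* ℤ_[p]ˣ} (hδ : Continuous δ) (m : ℤ) : Continuous (tw δ m) :=
  (((cyclotomicCharacter.continuous p ℚ Qb).comp continuous_subtype_val).zpow m).mul hδ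

lemma act1_tw (δ : DG V →* ℤ_[p]ˣ) (m : ℤ) (g : DG V) (x : ℚ_[p]) :
    act1 PadicInt.Coe.ringHom (chiPow p m) V δ g x = ((tw δ m g : ℤ_[p]) : ℚ_[p]) * x := by
  rw [act1_apply, tw_apply, Units.val_mul, PadicInt.coe_mul]
  rfl

lemma act2_MI (ρ : GQ →* GL (Fin 2) ℤ_[p]) (m : ℤ) (g : GQ) (v : Fin 2 → ℚ_[p]) (i : Fin 2) :
    act2 PadicInt.Coe.ringHom (chiPow p m) ρ g v i =
      (MI ρ m g i 0 : ℚ_[p]) * v 0 + (MI ρ m g i 1 : ℚ_[p]) * v 1 := by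
  simp only [act2, MI, chiPow, LinearMap.smul_apply, Matrix.mulVecLin_apply, Pi.smul_apply,
    smul_eq_mul, Matrix.mulVec, dotProduct, Fin.sum_univ_two, Matrix.map_apply, Matrix.smul_apply,
    PadicInt.coe_mul, mul_add, mul_assoc]
  rfl

lemma coe_mulVec (M : Matrix (Fin 2) (Fin 2) ℤ_[p]) (v : Fin 2 → ℤ_[p]) (i : Fin 2) :
    (M.mulVec v i : ℚ_[p]) = (M i 0 : ℚ_[p]) * v 0 + (M i 1 : ℚ_[p]) * v 1 := by
  simp only [Matrix.mulVec, dotProduct, Fin.sum_univ_two, PadicInt.coe_add, PadicInt.coe_mul]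

lemma dbar_tw (δ : DG V →* ℤ_[p]ˣ) (m : ℤ) {g : GQ} (hg : g ∈ DG V) :
    dbar V (tw δ m) g = om p g ^ m * dbar V δ g := by
  rw [FinalP.dbar_of_mem V _ hg, FinalP.dbar_of_mem V _ hg, tw_apply, Units.val_mul, map_mul,
    FinalP.toZMod_zpow]

lemma zi_eval {δ : DG V →* ℤ_[p]ˣ} (m : ℤ) (X : Z1 (actL V δ)) :
    ZI (tw δ m) fun g => eval p m (X.1 g) :=
  ⟨cont_of_levels fun n => by
    simp only [toZModPow_eval]
    exact ((hCont.lam p _ _).1 X.2.1 n).comp (evalN p m n),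
    fun g k => by
      beta_reduce
      rw [X.2.2, map_add, actL_apply, FinalP.sc_of_mem V δ g.2, map_mul, map_mul, eval_grp, eval_cst,
        inv_zpow', neg_neg, tw_apply, Units.val_mul]⟩

/-- An integral cocycle as a rational one. -/
def toQ {δ : DG V →* ℤ_[p]ˣ} {m : ℤ} {x : DG V → ℤ_[p]} (hx : ZI (tw δ m) x) :
    Cocyc (act1 PadicInt.Coe.ringHom (chiPow p m) V δ) :=
  ⟨⟨fun g => (x g : ℚ_[p]), continuous_subtype_val.comp hx.1⟩, fun g k => by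
    change ((x (g * k) : ℤ_[p]) : ℚ_[p]) = x g + act1 _ _ V δ g (x k : ℚ_[p])
    rw [act1_tw, hx.2, PadicInt.coe_add, PadicInt.coe_mul]⟩

lemma pQ (r : ℕ) : (p : ℚ_[p]) ^ r ≠ 0 := pow_ne_zero r (Nat.cast_ne_zero.2 hp.out.ne_zero)

lemma mk_eq {δ : DG V →* ℤ_[p]ˣ} {m : ℤ} {x₀ : DG V → ℤ_[p]} (hx₀ : ZI (tw δ m) x₀)
    (c : Cocyc (act1 PadicInt.Coe.ringHom (chiPow p m) V δ)) {r : ℕ} {s v : ℤ_[p]}
    (h : ∀ g, (p : ℚ_[p]) ^ r * c.1 g = ((s * x₀ g + (tw δ m g - 1) * v : ℤ_[p]) : ℚ_[p])) :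
    mkL _ _ V δ c = (((p : ℚ_[p]) ^ r)⁻¹ * s) • mkL _ _ V δ (toQ hx₀) := by
  rw [← map_smul, ← sub_eq_zero, ← map_sub, mkL_eq_zero]
  refine ⟨((p : ℚ_[p]) ^ r)⁻¹ * v, fun g => mul_left_cancel₀ (pQ r) ?_⟩
  change _ * (c.1 g - ((p : ℚ_[p]) ^ r)⁻¹ * s * x₀ g) = _
  rw [mul_sub, h g, act1_tw]
  have := pQ (p := p) r
  push_cast
  field_simp
  ring

lemma line {δ : DG V →* ℤ_[p]ˣ} {m : ℤ} {x₀ : DG V → ℤ_[p]} (hx₀ : ZI (tw δ m) x₀)
    (hg : ∃ g ∈ DG V, dbar V (tw δ m) g ≠ 1)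
    (hnb : ¬ Bo (DG V) (mulAct (dbar V (tw δ m))) fun g => toZMod (ext (DG V) 0 x₀ g))
    (hgen : ∀ x, ZI (tw δ m) x → ∃ s v : ℤ_[p], ∀ g, x g = s * x₀ g + (tw δ m g - 1) * v) :
    Module.finrank ℚ_[p] (HL PadicInt.Coe.ringHom (chiPow p m) V δ) = 1 := by
  have hne : mkL _ _ V δ (toQ hx₀) ≠ 0 := fun h0 => by
    obtain ⟨v, hv⟩ := (mkL_eq_zero _ _ _).1 h0
    obtain ⟨g₀, hg₀, hg1⟩ := hg
    have hu : IsUnit ((tw δ m ⟨g₀, hg₀⟩ : ℤ_[p]) - 1) := by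
      by_contra hn
      apply hg1
      rw [FinalP.dbar_of_mem V _ hg₀, ← sub_eq_zero, ← map_one (toZMod (p := p)), ← map_sub,
        ← RingHom.mem_ker, ker_toZMod]
      exact hn
    obtain ⟨u, hu⟩ := hu
    have hv' : ∀ g, (x₀ g : ℚ_[p]) = ((tw δ m g : ℤ_[p]) - 1 : ℤ_[p]) * v := fun g => by
      have : (x₀ g : ℚ_[p]) = _ := hv g
      rw [act1_tw] at this
      push_cast
      linear_combination this
    have e1 : v = (((u⁻¹ : ℤ_[p]ˣ) * x₀ ⟨g₀, hg₀⟩ : ℤ_[p]) : ℚ_[p]) := by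
      rw [PadicInt.coe_mul, hv', ← hu, ← mul_assoc, ← PadicInt.coe_mul, Units.inv_mul,
        PadicInt.coe_one, one_mul]
    refine hnb ⟨toZMod ((u⁻¹ : ℤ_[p]ˣ) * x₀ ⟨g₀, hg₀⟩ : ℤ_[p]), fun g hg => ?_⟩
    have e2 := hv' ⟨g, hg⟩
    rw [e1, ← PadicInt.coe_mul] at e2
    beta_reduce
    rw [ext_of_mem _ _ hg, Subtype.ext e2, mulAct_apply, FinalP.dbar_of_mem V _ hg, map_mul, map_sub,
      map_one, sub_mul, one_mul]
  refine (finrank_eq_one_iff_of_nonzero' _ hne).2 fun w => ?_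
  obtain ⟨c, rfl⟩ := mkL_surj _ _ _ _ w
  have : CompactSpace (DG V) := isCompact_iff_compactSpace.1 (val.dg_closed V).isCompact
  obtain ⟨r, x, hx⟩ := exists_scale c.1 c.1.norm_coe_le_norm
  obtain ⟨s, v, e⟩ := hgen x ⟨cont_of_coe (by simp only [hx]; fun_prop), fun g k => Subtype.ext (by
    rw [PadicInt.coe_add, PadicInt.coe_mul, hx, hx, hx, c.2, act1_tw]
    ring)⟩
  exact ⟨_, (mk_eq hx₀ c fun g => by rw [← hx, e]).symm⟩

end SelP

open SelP in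
theorem sel : SelStmt := by
  intro p hp hp2 m ρ hρ hdet V hVp δ h β hβ hβ1
  have hV : V ≠ ⊤ := val.above_ne V p hp.out.ne_zero hVp
  obtain ⟨hcont, hd, ⟨g₀, hg₀, hg1, hga, hgb⟩, X, Y, hnd⟩ :=
    FinalP.setup hCont val hUnr hNd hLift hp2 m hρ hdet hVp h hβ hβ1
  have hε := fun i => cont_tw (hcont i) m
  have hd' : ∀ g, tw (δ 0) m g * tw (δ 1) m g = chi p g := fun g => by
    rw [tw_apply, tw_apply, mul_mul_mul_comm, hd, ← zpow_add, ← zpow_add]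
    simp [two_mul]
  have hx₀ := zi_eval m X
  have hy₀ := zi_eval m Y
  have hch := fun i => hCont.dbar p V _ (hε i)
  have hprod : ∀ g ∈ DG V, dbar V (tw (δ 0) m) g * dbar V (tw (δ 1) m) g = om p g := fun g hg => by
    rw [FinalP.dbar_of_mem V _ hg, FinalP.dbar_of_mem V _ hg, ← map_mul, ← Units.val_mul, hd']
    rfl
  have hnd' : ¬ B2 (DG V) aU fun g h => iot1 p (toZMod (cupI (tw (δ 1) m)
      (fun g => eval p m (X.1 g)) (fun g => eval p m (Y.1 g)) g h)) := fun hB =>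
    hnd (hB.congr fun g hg k hk => by
      rw [FinalP.cupL, map_mul (ev1 p m), FinalP.ev1_star, map_mul (ev1 p m), FinalP.ev1_sc m V _ hg,
        cupI, ext_of_mem _ _ hg, ext_of_mem _ _ hk, ext_of_mem _ _ hg, ext_of_mem _ _ hk,
        map_mul toZMod, map_mul toZMod, ← dbar_eq _ hg, dbar_tw _ _ hg, mul_comm (om p g ^ m)]
      rfl)
  have cup := coh3.cup (ZMod p) (ZMod p) AU (DG V) _ _ aU (AddMonoidHom.mul.compr₂ (iot1 p)) _ _
    ⟨(hch 0).isAct, (hch 1).isAct, isAct_aU _, fun g hg s t => by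
      simp only [AddMonoidHom.compr₂_apply, AddMonoidHom.mul_apply, mulAct_apply]
      rw [aU_iot1, ← hprod g hg]
      congr 1
      ring⟩ (hx₀.bar hCont val) (hy₀.bar hCont val)
  have ecup : ∀ {f : GQ → GQ → AU}, B2 (DG V) aU f → (∀ g ∈ DG V, ∀ k ∈ DG V, f g k =
      iot1 p (toZMod (ext (DG V) 0 (fun g => eval p m (X.1 g)) g) * (dbar V (tw (δ 1) m) g *
        toZMod (ext (DG V) 0 (fun g => eval p m (Y.1 g)) k)))) → False := fun hB e =>
    hnd' (hB.congr fun g hg k hk => by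
      rw [e g hg k hk, cupI, map_mul toZMod, map_mul toZMod, dbar_eq _ hg])
  have nbx := fun hB => ecup (cup.2.1 hB) fun _ _ _ _ => rfl
  have nby := fun hB => ecup (cup.2.2.1 hB) fun _ _ _ _ => rfl
  have hna : dbar V (tw (δ 0) m) g₀ ≠ 1 := by rwa [dbar_tw _ _ hg₀, hg1, one_zpow, one_mul]
  have hnb : dbar V (tw (δ 1) m) g₀ ≠ 1 := by rwa [dbar_tw _ _ hg₀, hg1, one_zpow, one_mul]
  have hL := loc1 coh3 val hDens hUnr hPhi hNd p hp2 V
  have genx : ∀ x, ZI (tw (δ 0) m) x → _ := fun x hx => gen hCont val (hε 0) hx₀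
    (fun x₁ hx₁ => hL _ _ hVp (hch 0) (hch 1) hprod ⟨g₀, hg₀, hg1, hna⟩ _ x₁
      (hx₀.bar hCont val) nbx hx₁) hx
  have geny : ∀ y, ZI (tw (δ 1) m) y → _ := fun y hy => gen hCont val (hε 1) hy₀
    (fun y₁ hy₁ => hL _ _ hVp (hch 1) (hch 0) (fun g hg => by rw [mul_comm, hprod g hg])
      ⟨g₀, hg₀, hg1, hnb⟩ _ y₁ (hy₀.bar hCont val) nby hy₁) hy
  refine ⟨Fin.forall_fin_two.2 ⟨line hx₀ ⟨g₀, hg₀, hna⟩ nbx genx,
    line hy₀ ⟨g₀, hg₀, hnb⟩ nby geny⟩, ?_⟩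
  have key : ∀ w, (locAt PadicInt.Coe.ringHom (chiPow p m) h {p} 0).hom w = 0 ∨
      (locAt PadicInt.Coe.ringHom (chiPow p m) h {p} 1).hom w = 0 := by
    intro w
    obtain ⟨c, rfl⟩ := mkG_surj _ _ _ _ w
    obtain ⟨r, z', hz'⟩ := exists_scale (fun q : GQ × Fin 2 => c.1 q.1 q.2) fun q =>
      (norm_le_pi_norm _ q.2).trans (c.1.norm_coe_le_norm q.1)
    let z : GQ → Fin 2 → ℤ_[p] := fun g i => z' (g, i)
    have hz : ∀ g i, (z g i : ℚ_[p]) = (p : ℚ_[p]) ^ r * c.1 g i := fun g i => hz' (g, i)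
    have hzc : ∀ i, Continuous fun g => z g i := fun i => cont_of_coe (by
      simp only [hz]
      exact continuous_const.mul ((continuous_apply i).comp c.1.continuous))
    have hz2 : ∀ g k, z (g * k) = z g + (MI ρ m g).mulVec (z k) := fun g k => funext fun i =>
      Subtype.ext (by
        change (z (g * k) i : ℚ_[p]) = ((z g i + (MI ρ m g).mulVec (z k) i : ℤ_[p]) : ℚ_[p])
        rw [PadicInt.coe_add, coe_mulVec, hz, hz, hz, hz, unrOut_le _ _ c.2 g k, Pi.add_apply,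
          act2_MI]
        ring)
    have hT := iso coh2 coh3 hCont hUnr hUn hRec hp2 hρ hdet hzc hz2 fun W hW hWp => by
      obtain ⟨l, hl, hWl⟩ := val.above_ex W hW
      have h1 := c.2.2
      simp only [SetLike.mem_coe, Submodule.mem_iInf] at h1
      obtain ⟨v, hv⟩ := h1 l ⟨hl, fun e => hWp (by rwa [Set.mem_singleton_iff.1 e] at hWl)⟩ W hWl
      obtain ⟨k, v', hv'⟩ := exists_scale (fun i => (p : ℚ_[p]) ^ r * v i)
        (norm_le_pi_norm fun i => (p : ℚ_[p]) ^ r * v i)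
      refine ⟨k, v', fun g hg => funext fun i => Subtype.ext ?_⟩
      change (((p : ℤ_[p]) ^ k * z g i : ℤ_[p]) : ℚ_[p]) =
        (((MI ρ m g).mulVec v' i - v' i : ℤ_[p]) : ℚ_[p])
      rw [PadicInt.coe_sub, coe_mulVec, hv', hv', hv', PadicInt.coe_mul, hz, hv g hg, Pi.sub_apply,
        act2_MI]
      push_cast
      ring
    have hM : ∀ (g : DG V) (v : Fin 2 → ℤ_[p]) (i : Fin 2),
        (MI ρ m g).mulVec v i = tw (δ i) m g * v i := fun g v i => by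
      rw [MI, h g, Matrix.smul_mulVec, Pi.smul_apply, Matrix.mulVec_diagonal, tw_apply,
        Units.val_mul, smul_eq_mul, mul_assoc]
    have hzi : ∀ i, ZI (tw (δ i) m) fun g => z g i := fun i =>
      ⟨(hzc i).comp continuous_subtype_val, fun g k => by
        beta_reduce
        rw [Subgroup.coe_mul, hz2, Pi.add_apply, hM]⟩
    obtain ⟨s, v, ex⟩ := genx _ (hzi 0)
    obtain ⟨t, w, ey⟩ := geny _ (hzi 1)
    have h0 := coord_zero coh3 hCont val (hε 0) (hε 1) hd' hx₀ (hzi 0) (hzi 1) hnd' ex ey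
      fun n => ((hT n).mono le_top).congr fun g hg k hk => by
        simp only [cupI, ext_of_mem _ _ hg, ext_of_mem _ _ hk, eI_of_mem _ hg, ← hM ⟨g, hg⟩ (z k)]
    rw [locAt_mk, locAt_mk]
    refine h0.imp (fun h0 => ?_) fun h0 => ?_
    · rw [mk_eq hx₀ _ (r := r) fun g => (hz g 0).symm.trans (congrArg _ (ex g)), h0]
      simp
    · rw [mk_eq hy₀ _ (r := r) fun g => (hz g 1).symm.trans (congrArg _ (ey g)), h0]
      simp
  by_contra hcon
  push Not at hcon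
  obtain ⟨a, ha⟩ : ∃ a, (locAt PadicInt.Coe.ringHom (chiPow p m) h {p} 0).hom a ≠ 0 := by
    by_contra h0
    push Not at h0
    exact hcon.1 (ModuleCat.hom_ext (LinearMap.ext h0))
  obtain ⟨b, hb⟩ : ∃ b, (locAt PadicInt.Coe.ringHom (chiPow p m) h {p} 1).hom b ≠ 0 := by
    by_contra h0
    push Not at h0
    exact hcon.2 (ModuleCat.hom_ext (LinearMap.ext h0))
  rcases key (a + b) with h0 | h0
  · rw [map_add, (key b).resolve_right hb, add_zero] at h0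
    exact ha h0
  · rw [map_add, (key a).resolve_left ha, zero_add] at h0
    exact hb h0

end Pool.Agent.MP_59efd2_nt.lz
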